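import Mathlib

/-!
# Summation operators along a set of times
-/

namespace DeckG

open Classical in
/-- The number of times of `[a, j)` in the set `τ`. -/
noncomputable def trc (τ : ℕ → Prop) (a j : ℕ) : ℕ := ((Finset.Ico a j).filter τ).card

open Classical in
/-- The sum over the earlier times of the set `τ`. -/
noncomputable def Eop {R : Type*} [CommRing R] (τ : ℕ → Prop) (g : ℕ → R) (j : ℕ) : R :=
  ∑ i ∈ Finset.range j, if τ i then g i else 0

section

variable {R : Type*} [CommRing R] (τ : ℕ → Prop)

lemma trc_of_le {a j : ℕ} (h : j ≤ a) : trc τ a j = 0 := by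
  unfold trc
  rw [Finset.Ico_eq_empty_of_le h]; simp

lemma trc_succ_pos {a j : ℕ} (h : a ≤ j) (hj : τ j) : trc τ a (j + 1) = trc τ a j + 1 := by
  classical
  unfold trc
  have e : Finset.Ico a (j + 1) = insert j (Finset.Ico a j) :=
    Nat.Ico_succ_right_eq_insert_Ico h
  rw [e, Finset.filter_insert, if_pos hj, Finset.card_insert_of_notMem]
  simp

lemma trc_succ_neg {a j : ℕ} (hj : ¬ τ j) : trc τ a (j + 1) = trc τ a j := by
  classical
  rcases Nat.lt_or_ge j a with h | h
  · rw [trc_of_le τ h.le, trc_of_le τ (by omega)]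
  · unfold trc
    have e : Finset.Ico a (j + 1) = insert j (Finset.Ico a j) :=
      Nat.Ico_succ_right_eq_insert_Ico h
    rw [e, Finset.filter_insert, if_neg hj]

lemma trc_mono {a i j : ℕ} (h : i ≤ j) : trc τ a i ≤ trc τ a j := by
  classical
  unfold trc
  exact Finset.card_le_card (Finset.filter_subset_filter _ (Finset.Ico_subset_Ico le_rfl h))

lemma Eop_succ (g : ℕ → R) (j : ℕ) [Decidable (τ j)] :
    Eop τ g (j + 1) = Eop τ g j + if τ j then g j else 0 := by
  unfold Eop
  rw [Finset.sum_range_succ]
  congr 1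
  congr 1

lemma Eop_zero (g : ℕ → R) : Eop τ g 0 = 0 := rfl

/-- Iterating the operator on the indicator of `[a, ∞)` gives binomial coefficients. -/
lemma Eit_ind {a b : ℕ} {g : ℕ → R} (hg : ∀ i ≤ b, g i = if a ≤ i then 1 else 0) :
    ∀ r j, j ≤ b → (Eop τ)^[r] g j = if a ≤ j then ((trc τ a j).choose r : R) else 0 := by
  classical
  intro r
  induction r with
  | zero =>
    intro j hj
    simpa using hg j hj
  | succ r ih =>
    intro j
    induction j with
    | zero =>
      intro _
      rw [Function.iterate_succ_apply', Eop_zero, trc_of_le τ (Nat.zero_le a)]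
      simp
    | succ j ihj =>
      intro hj
      have h1 := ihj (by omega)
      rw [Function.iterate_succ_apply'] at h1 ⊢
      rw [Eop_succ, h1, ih j (by omega)]
      by_cases hτ : τ j
      · by_cases ha : a ≤ j
        · rw [if_pos ha, if_pos hτ, if_pos ha, if_pos (by omega), trc_succ_pos τ ha hτ,
            Nat.choose_succ_succ]
          push_cast
          ring
        · rw [if_neg ha, if_pos hτ, if_neg ha]
          by_cases ha' : a ≤ j + 1
          · rw [if_pos ha', trc_of_le τ (by omega : j + 1 ≤ a)]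
            simp
          · rw [if_neg ha']
            simp
      · rw [if_neg hτ, add_zero, trc_succ_neg τ hτ]
        by_cases ha : a ≤ j
        · rw [if_pos ha, if_pos (by omega)]
        · rw [if_neg ha]
          by_cases ha' : a ≤ j + 1
          · rw [if_pos ha', trc_of_le τ (by omega : j ≤ a)]
            simp
          · rw [if_neg ha']

/-- Iterating the operator on a function that vanishes before `a'` extracts its value at the first
time `b'` of the set after `a'`. -/
lemma Eit_extract {a' b' : ℕ} {g : ℕ → R} (hg : ∀ i < a', g i = 0) (hab : a' ≤ b') (hb : τ b')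
    (hno : ∀ i, a' ≤ i → i < b' → ¬ τ i) : ∀ j r,
    (trc τ b' j < r + 1 → (Eop τ)^[r + 1] g j = 0) ∧
      (trc τ b' j = r + 1 → (Eop τ)^[r + 1] g j = g b') := by
  classical
  intro j
  induction j with
  | zero =>
    intro r
    rw [Function.iterate_succ_apply', Eop_zero, trc_of_le τ (Nat.zero_le b')]
    exact ⟨fun _ => rfl, fun h => by omega⟩
  | succ j ih =>
    intro r
    have e : (Eop τ)^[r + 1] g (j + 1) = (Eop τ)^[r + 1] g j + if τ j then (Eop τ)^[r] g j else 0 := by
      rw [Function.iterate_succ_apply', Eop_succ]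
    rw [e]
    by_cases hτ : τ j
    · rw [if_pos hτ]
      rcases Nat.lt_or_ge j a' with h1 | h1
      · have t1 : trc τ b' (j + 1) = 0 := trc_of_le τ (by omega)
        have t0 : trc τ b' j = 0 := trc_of_le τ (by omega)
        rw [t1]
        refine ⟨fun _ => ?_, fun h => by omega⟩
        rw [(ih r).1 (by omega)]
        cases r with
        | zero => simpa using hg j h1
        | succ r' => rw [(ih r').1 (by omega)]; simp
      · rcases Nat.lt_trichotomy j b' with h2 | h2 | h2
        · exact absurd hτ (hno j h1 h2)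
        · subst h2
          have t0 : trc τ j j = 0 := trc_of_le τ le_rfl
          rw [trc_succ_pos τ le_rfl hτ, t0]
          constructor
          · intro h
            obtain ⟨r', rfl⟩ : ∃ r', r = r' + 1 := ⟨r - 1, by omega⟩
            rw [(ih (r' + 1)).1 (by omega), (ih r').1 (by omega)]
            simp
          · intro h
            obtain rfl : r = 0 := by omega
            rw [(ih 0).1 (by omega)]
            simp
        · have t1 : 1 ≤ trc τ b' j := by
            have := trc_mono τ (a := b') (i := b' + 1) (j := j) (by omega)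
            rw [trc_succ_pos τ le_rfl hb] at this
            omega
          rw [trc_succ_pos τ h2.le hτ]
          constructor
          · intro h
            obtain ⟨r', rfl⟩ : ∃ r', r = r' + 1 := ⟨r - 1, by omega⟩
            rw [(ih (r' + 1)).1 (by omega), (ih r').1 (by omega)]
            simp
          · intro h
            obtain ⟨r', rfl⟩ : ∃ r', r = r' + 1 := ⟨r - 1, by omega⟩
            rw [(ih (r' + 1)).1 (by omega), (ih r').2 (by omega)]
            simp
    · rw [if_neg hτ, add_zero, trc_succ_neg τ hτ]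
      exact ih r

end

lemma newton (F : ℕ → ℤ) (μ : ℕ) : ∃ c : ℕ → ℤ, ∀ N ≤ μ,
    F N = ∑ r ∈ Finset.range (μ + 1), c r * (N.choose r : ℤ) := by
  induction μ with
  | zero =>
    refine ⟨fun _ => F 0, fun N hN => ?_⟩
    obtain rfl : N = 0 := by omega
    simp
  | succ μ ih =>
    obtain ⟨c, hc⟩ := ih
    refine ⟨fun r => if r = μ + 1 then
      F (μ + 1) - ∑ r ∈ Finset.range (μ + 1), c r * ((μ + 1).choose r : ℤ) else c r, fun N hN => ?_⟩
    rw [Finset.sum_range_succ]
    have e : ∑ x ∈ Finset.range (μ + 1), (if x = μ + 1 then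
        F (μ + 1) - ∑ r ∈ Finset.range (μ + 1), c r * ((μ + 1).choose r : ℤ) else c x) *
          (N.choose x : ℤ) = ∑ r ∈ Finset.range (μ + 1), c r * (N.choose r : ℤ) := by
      refine Finset.sum_congr rfl fun r hr => ?_
      have := Finset.mem_range.1 hr
      rw [if_neg (by omega)]
    rw [e]
    simp only [if_true]
    rcases Nat.lt_or_ge N (μ + 1) with h | h
    · rw [Nat.choose_eq_zero_of_lt h, hc N (by omega)]
      simp
    · obtain rfl : N = μ + 1 := by omega
      simp

/-- The level sets of a monotone function are determined by their sizes. -/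
lemma level_iff {f : ℕ → ℕ} (hf : ∀ i j, i ≤ j → f i ≤ f j) {a b i q : ℕ} (hai : a ≤ i)
    (hib : i < b) : q ≤ f i ↔ b - i ≤ ((Finset.Ico a b).filter fun j => q ≤ f j).card := by
  constructor
  · intro h
    have : Finset.Ico i b ⊆ (Finset.Ico a b).filter fun j => q ≤ f j := by
      intro j hj
      have := Finset.mem_Ico.1 hj
      exact Finset.mem_filter.2 ⟨Finset.mem_Ico.2 ⟨by omega, by omega⟩, h.trans (hf i j this.1)⟩
    simpa using Finset.card_le_card this
  · intro h
    by_contra hlt
    have : (Finset.Ico a b).filter (fun j => q ≤ f j) ⊆ Finset.Ico (i + 1) b := by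
      intro j hj
      obtain ⟨h1, h2⟩ := Finset.mem_filter.1 hj
      have h3 := Finset.mem_Ico.1 h1
      refine Finset.mem_Ico.2 ⟨?_, h3.2⟩
      by_contra hji
      exact hlt (h2.trans (hf j i (by omega)))
    have := Finset.card_le_card this
    simp at this
    omega

/-- Two sets of at most `μ` times with equal binomial moments are equal. -/
theorem times_eq {M a b μ : ℕ} {τ σ : ℕ → Prop} (hM : b < 2 ^ M) (hμ : trc τ a b ≤ μ)
    (heq : trc τ a b = trc σ a b)
    (hS : ∀ r ≤ μ, ∑ i ∈ Finset.range b, (if a ≤ i then ((trc τ a i).choose r : ZMod (2 ^ M)) else 0)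
      = ∑ i ∈ Finset.range b, (if a ≤ i then ((trc σ a i).choose r : ZMod (2 ^ M)) else 0)) :
    ∀ j ≤ b, trc τ a j = trc σ a j := by
  classical
  have hcount : ∀ (ρ : ℕ → Prop), trc ρ a b ≤ μ → ∀ q, ∀ c : ℕ → ℤ,
      (∀ N ≤ μ, (if q ≤ N then (1 : ℤ) else 0) =
        ∑ r ∈ Finset.range (μ + 1), c r * (N.choose r : ℤ)) →
      ((((Finset.Ico a b).filter fun j => q ≤ trc ρ a j).card : ℕ) : ZMod (2 ^ M)) =
        ∑ r ∈ Finset.range (μ + 1), (c r : ZMod (2 ^ M)) *
          ∑ i ∈ Finset.range b, (if a ≤ i then ((trc ρ a i).choose r : ZMod (2 ^ M)) else 0) := by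
    intro ρ hρ q c hc
    simp_rw [Finset.mul_sum]
    rw [Finset.sum_comm]
    have e1 : (Finset.Ico a b).filter (fun j => q ≤ trc ρ a j) =
        (Finset.range b).filter (fun j => a ≤ j ∧ q ≤ trc ρ a j) := by
      ext j; simp only [Finset.mem_filter, Finset.mem_Ico, Finset.mem_range]; tauto
    rw [e1, Finset.card_filter]
    push_cast
    refine Finset.sum_congr rfl fun i hi => ?_
    have hi' := Finset.mem_range.1 hi
    by_cases ha : a ≤ i
    · simp only [ha, true_and, if_true]
      have h1 := hc (trc ρ a i) ((trc_mono ρ hi'.le).trans hρ)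
      have h2 := congrArg (Int.cast : ℤ → ZMod (2 ^ M)) h1
      push_cast at h2
      rw [← h2]
    · simp [ha]
  have hcard : ∀ q, ((Finset.Ico a b).filter fun j => q ≤ trc τ a j).card =
      ((Finset.Ico a b).filter fun j => q ≤ trc σ a j).card := by
    intro q
    obtain ⟨c, hc⟩ := newton (fun N => if q ≤ N then (1 : ℤ) else 0) μ
    have h1 := hcount τ hμ q c hc
    have h2 := hcount σ (heq ▸ hμ) q c hc
    have h3 : ∑ r ∈ Finset.range (μ + 1), (c r : ZMod (2 ^ M)) *
          ∑ i ∈ Finset.range b, (if a ≤ i then ((trc τ a i).choose r : ZMod (2 ^ M)) else 0) =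
        ∑ r ∈ Finset.range (μ + 1), (c r : ZMod (2 ^ M)) *
          ∑ i ∈ Finset.range b, (if a ≤ i then ((trc σ a i).choose r : ZMod (2 ^ M)) else 0) := by
      refine Finset.sum_congr rfl fun r hr => ?_
      rw [hS r (by have := Finset.mem_range.1 hr; omega)]
    rw [← h1, ← h2] at h3
    have h4 := (ZMod.natCast_eq_natCast_iff' _ _ _).1 h3
    have hle : ∀ ρ : ℕ → Prop, ((Finset.Ico a b).filter fun j => q ≤ trc ρ a j).card < 2 ^ M := by
      intro ρ
      have := Finset.card_filter_le (Finset.Ico a b) (fun j => q ≤ trc ρ a j)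
      rw [Nat.card_Ico] at this
      omega
    rwa [Nat.mod_eq_of_lt (hle τ), Nat.mod_eq_of_lt (hle σ)] at h4
  intro j hj
  rcases Nat.lt_or_ge j a with h | h
  · rw [trc_of_le τ h.le, trc_of_le σ h.le]
  · rcases Nat.eq_or_lt_of_le hj with h' | h'
    · rw [h']; exact heq
    · apply le_antisymm
      · rw [level_iff (f := trc σ a) (fun i j hij => trc_mono σ hij) h h', ← hcard,
          ← level_iff (f := trc τ a) (fun i j hij => trc_mono τ hij) h h']
      · rw [level_iff (f := trc τ a) (fun i j hij => trc_mono τ hij) h h', hcard,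
          ← level_iff (f := trc σ a) (fun i j hij => trc_mono σ hij) h h']

/-- Two sets of times with the same counting functions are equal. -/
lemma mem_iff_of_trc {a b : ℕ} {τ σ : ℕ → Prop} (h : ∀ j ≤ b, trc τ a j = trc σ a j) {i : ℕ}
    (hi : a ≤ i) (hib : i < b) : τ i ↔ σ i := by
  have h0 := h i hib.le
  have h1 := h (i + 1) hib
  by_cases h2 : τ i <;> by_cases h3 : σ i
  · simp [h2, h3]
  · rw [trc_succ_pos τ hi h2, trc_succ_neg σ h3] at h1; omega
  · rw [trc_succ_neg τ h2, trc_succ_pos σ hi h3] at h1; omega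
  · simp [h2, h3]

end DeckG
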