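import Pool.Agent.DeckG.Cls
import Pool.Agent.DeckG.Seq

/-!
# Accessible time intervals
-/

namespace DeckG

open DeckA

/-- The sequence `x` traverses the edge `(κ, c)` at the time `i`: the word read so far is in the
class of `κ`, and the next letter is `c`. -/
def Trav (t : ℕ) (κ : List Bool) (c : Bool) (x : ℕ → Bool) (i : ℕ) : Prop :=
  Cl t κ (pre x i) ∧ c = x i

/-- `h` is the indicator of the class of `κ`, modulo `2 ^ M`, on the words read until time `n`. -/
def IsInd (M t n : ℕ) (x : ℕ → Bool) (κ : List Bool) (h : List Bool → ℤ) : Prop :=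
  ∀ i ≤ n, (Cl t κ (pre x i) → ((h (pre x i) : ℤ) : ZMod (2 ^ M)) = 1) ∧
    (¬ Cl t κ (pre x i) → ((h (pre x i) : ℤ) : ZMod (2 ^ M)) = 0)

/-- The indicator of the times `≥ a` is accessible up to the time `b`. -/
def LeftOK (M : ℕ) (x y : ℕ → Bool) (a b D : ℕ) : Prop :=
  ∃ L ∈ PolZ D, ∀ j ≤ b, ((L (pre x j) : ℤ) : ZMod (2 ^ M)) = (if a ≤ j then 1 else 0) ∧
    ((L (pre y j) : ℤ) : ZMod (2 ^ M)) = (if a ≤ j then 1 else 0)

/-- The values at time `b` of functions that vanish before `a` are accessible. -/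
def RightOK (k M : ℕ) (x y : ℕ → Bool) (a b D : ℕ) : Prop :=
  ∀ E, E + D ≤ k → ∀ G ∈ PolZ E, (∀ j < a, ((G (pre x j) : ℤ) : ZMod (2 ^ M)) = 0 ∧
    ((G (pre y j) : ℤ) : ZMod (2 ^ M)) = 0) →
      ((G (pre x b) : ℤ) : ZMod (2 ^ M)) = ((G (pre y b) : ℤ) : ZMod (2 ^ M))

/-- The operator of the edge with class indicator `h` and letter `c`. -/
def Ed (h : List Bool → ℤ) (c : Bool) (G : List Bool → ℤ) : List Bool → ℤ := J c (h * G)

lemma Ed_iter_mem {d D : ℕ} {h G : List Bool → ℤ} (c : Bool) (hh : h ∈ PolZ d) (hG : G ∈ PolZ D)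
    (r : ℕ) : (Ed h c)^[r] G ∈ PolZ (D + r * (d + 1)) := by
  induction r with
  | zero => simpa using hG
  | succ r ih =>
    rw [Function.iterate_succ_apply']
    exact PolZ_mono (le_of_eq (by ring)) (J_mem c (mul_memZ hh ih))

section

variable {k M t n : ℕ} {x y : ℕ → Bool}

lemma Eop_congr {R : Type*} [CommRing R] (τ : ℕ → Prop) {g g' : ℕ → R} {j : ℕ}
    (h : ∀ i < j, g i = g' i) : Eop τ g j = Eop τ g' j := by
  classical
  unfold Eop
  exact Finset.sum_congr rfl fun i hi => by rw [h i (Finset.mem_range.1 hi)]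

lemma Ed_eval {κ : List Bool} {h : List Bool → ℤ} (hh : IsInd M t n x κ h) (c : Bool)
    (G : List Bool → ℤ) {j : ℕ} (hj : j ≤ n) :
    ((Ed h c G (pre x j) : ℤ) : ZMod (2 ^ M)) =
      Eop (Trav t κ c x) (fun i => ((G (pre x i) : ℤ) : ZMod (2 ^ M))) j := by
  classical
  unfold Ed Eop
  rw [J_pre]
  push_cast
  refine Finset.sum_congr rfl fun i hi => ?_
  have hi' := Finset.mem_range.1 hi
  by_cases hc : c = x i
  · by_cases hκ : Cl t κ (pre x i)
    · rw [if_pos hc, if_pos (show Trav t κ c x i from ⟨hκ, hc⟩)]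
      simp only [Pi.mul_apply]
      push_cast
      rw [(hh i (by omega)).1 hκ, one_mul]
    · rw [if_pos hc, if_neg (fun h' : Trav t κ c x i => hκ h'.1)]
      simp only [Pi.mul_apply]
      push_cast
      rw [(hh i (by omega)).2 hκ, zero_mul]
  · rw [if_neg hc, if_neg (fun h' : Trav t κ c x i => hc h'.2)]

lemma Ed_iter_eval {κ : List Bool} {h : List Bool → ℤ} (hh : IsInd M t n x κ h) (c : Bool)
    (G : List Bool → ℤ) : ∀ (r j : ℕ), j ≤ n →
    (((Ed h c)^[r] G (pre x j) : ℤ) : ZMod (2 ^ M)) =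
      (Eop (Trav t κ c x))^[r] (fun i => ((G (pre x i) : ℤ) : ZMod (2 ^ M))) j := by
  intro r
  induction r with
  | zero => intro j _; rfl
  | succ r ih =>
    intro j hj
    rw [Function.iterate_succ_apply', Function.iterate_succ_apply', Ed_eval hh c _ hj]
    exact Eop_congr _ fun i hi => ih i (by omega)

lemma Eit_vanish {R : Type*} [CommRing R] (τ : ℕ → Prop) {g : ℕ → R} {a : ℕ}
    (h : ∀ i < a, g i = 0) (r : ℕ) : ∀ j < a, (Eop τ)^[r] g j = 0 := by
  classical
  induction r with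
  | zero => simpa using h
  | succ r ih =>
    intro j hj
    rw [Function.iterate_succ_apply']
    unfold Eop at ih ⊢
    refine Finset.sum_eq_zero fun i hi => ?_
    rw [ih i (by have := Finset.mem_range.1 hi; omega)]
    simp

lemma trc_le (τ : ℕ → Prop) (a b : ℕ) : trc τ a b ≤ b - a := by
  classical
  unfold trc
  simpa using Finset.card_filter_le (Finset.Ico a b) τ

lemma natCast_inj {a b : ℕ} (ha : a < 2 ^ M) (hb : b < 2 ^ M)
    (h : (a : ZMod (2 ^ M)) = (b : ZMod (2 ^ M))) : a = b := by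
  have := (ZMod.natCast_eq_natCast_iff' _ _ _).1 h
  rwa [Nat.mod_eq_of_lt ha, Nat.mod_eq_of_lt hb] at this

/-- The number of traversals of an edge in an accessible interval is the same. -/
lemma total {a b D d : ℕ} {κ : List Bool} {h : List Bool → ℤ} (c : Bool) (hM : n < 2 ^ M)
    (hab : a ≤ b) (hb : b ≤ n) (hL : LeftOK M x y a b D) (hR : RightOK k M x y a b D)
    (hd : h ∈ PolZ d) (hx : IsInd M t n x κ h) (hy : IsInd M t n y κ h)
    (hk : D + (d + 1) + D ≤ k) : trc (Trav t κ c x) a b = trc (Trav t κ c y) a b := by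
  obtain ⟨L, hLD, hLv⟩ := hL
  have hmem := Ed_iter_mem c hd hLD 1
  have h1 := hR (D + 1 * (d + 1)) (by omega) _ hmem (by
    intro j hj
    rw [Ed_iter_eval hx c L 1 j (by omega), Ed_iter_eval hy c L 1 j (by omega)]
    exact ⟨Eit_vanish _ (fun i hi => by rw [(hLv i (by omega)).1, if_neg (by omega)]) 1 j hj,
      Eit_vanish _ (fun i hi => by rw [(hLv i (by omega)).2, if_neg (by omega)]) 1 j hj⟩)
  rw [Ed_iter_eval hx c L 1 b hb, Ed_iter_eval hy c L 1 b hb,
    Eit_ind (Trav t κ c x) (fun i hi => (hLv i hi).1) 1 b le_rfl,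
    Eit_ind (Trav t κ c y) (fun i hi => (hLv i hi).2) 1 b le_rfl, if_pos hab, if_pos hab,
    Nat.choose_one_right, Nat.choose_one_right] at h1
  refine natCast_inj ?_ ?_ h1
  · have := trc_le (Trav t κ c x) a b; omega
  · have := trc_le (Trav t κ c y) a b; omega

/-- The times of the traversals of an edge with few traversals are the same. -/
lemma times {a b D d μ : ℕ} {κ : List Bool} {h : List Bool → ℤ} (c : Bool) (hM : n < 2 ^ M)
    (hab : a ≤ b) (hb : b ≤ n) (hL : LeftOK M x y a b D) (hR : RightOK k M x y a b D)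
    (hd : h ∈ PolZ d) (hx : IsInd M t n x κ h) (hy : IsInd M t n y κ h)
    (hμ : trc (Trav t κ c x) a b ≤ μ)
    (hk : D + (d + 1) + D ≤ k) (hk' : D + μ * (d + 1) + 1 + D ≤ k) :
    ∀ j ≤ b, trc (Trav t κ c x) a j = trc (Trav t κ c y) a j := by
  have htot := total c hM hab hb hL hR hd hx hy hk
  obtain ⟨L, hLD, hLv⟩ := hL
  refine times_eq (M := M) (by omega) hμ htot fun r hr => ?_
  have hmem := Ed_iter_mem c hd hLD r
  set F := (Ed h c)^[r] L with hF
  have hFx : ∀ j ≤ b, ((F (pre x j) : ℤ) : ZMod (2 ^ M)) =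
      if a ≤ j then ((trc (Trav t κ c x) a j).choose r : ZMod (2 ^ M)) else 0 := by
    intro j hj
    rw [hF, Ed_iter_eval hx c L r j (by omega)]
    exact Eit_ind (Trav t κ c x) (fun i hi => (hLv i hi).1) r j hj
  have hFy : ∀ j ≤ b, ((F (pre y j) : ℤ) : ZMod (2 ^ M)) =
      if a ≤ j then ((trc (Trav t κ c y) a j).choose r : ZMod (2 ^ M)) else 0 := by
    intro j hj
    rw [hF, Ed_iter_eval hy c L r j (by omega)]
    exact Eit_ind (Trav t κ c y) (fun i hi => (hLv i hi).2) r j hj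
  have hsum : ∀ (z : ℕ → Bool) (j : ℕ), (J true F + J false F) (pre z j) =
      ∑ i ∈ Finset.range j, F (pre z i) := by
    intro z j
    rw [Pi.add_apply, J_pre, J_pre, ← Finset.sum_add_distrib]
    refine Finset.sum_congr rfl fun i _ => ?_
    cases z i <;> simp
  have hGm : J true F + J false F ∈ PolZ (D + μ * (d + 1) + 1) := by
    have h2 : r * (d + 1) ≤ μ * (d + 1) := Nat.mul_le_mul_right _ hr
    have h3 : F ∈ PolZ (D + μ * (d + 1)) := PolZ_mono (by omega) hmem
    exact add_mem (J_mem _ h3) (J_mem _ h3)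
  have h1 := hR _ hk' _ hGm (by
    intro j hj
    rw [hsum, hsum]
    push_cast
    constructor
    · refine Finset.sum_eq_zero fun i hi => ?_
      have hi' := Finset.mem_range.1 hi
      rw [hFx i (by omega), if_neg (by omega)]
    · refine Finset.sum_eq_zero fun i hi => ?_
      have hi' := Finset.mem_range.1 hi
      rw [hFy i (by omega), if_neg (by omega)])
  rw [hsum, hsum] at h1
  push_cast at h1
  rw [Finset.sum_congr rfl (fun i hi => hFx i (Finset.mem_range.1 hi).le),
    Finset.sum_congr rfl (fun i hi => hFy i (Finset.mem_range.1 hi).le)] at h1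
  exact h1

/-- The interval after a traversal of a rare edge. -/
lemma left_child {a b D d μ p b' : ℕ} {κ : List Bool} {h : List Bool → ℤ} {c : Bool}
    (hb : b ≤ n) (hL : LeftOK M x y a b D)
    (hd : h ∈ PolZ d) (hx : IsInd M t n x κ h) (hy : IsInd M t n y κ h)
    (hμ : trc (Trav t κ c x) a b ≤ μ)
    (heq : ∀ j ≤ b, trc (Trav t κ c x) a j = trc (Trav t κ c y) a j)
    (hap : a ≤ p) (hpb' : p < b') (hb' : b' ≤ b) (hp : Trav t κ c x p)
    (hno : ∀ i, p < i → i < b' → ¬ Trav t κ c x i) :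
    LeftOK M x y (p + 1) b' (D + μ * (d + 1)) := by
  obtain ⟨L, hLD, hLv⟩ := hL
  set q := trc (Trav t κ c x) a (p + 1) with hq
  have hqμ : q ≤ μ := (trc_mono _ (by omega)).trans hμ
  have hq1 : q = trc (Trav t κ c x) a p + 1 := trc_succ_pos _ hap hp
  have hmem : (Ed h c)^[q] L ∈ PolZ (D + μ * (d + 1)) := by
    have h2 : q * (d + 1) ≤ μ * (d + 1) := Nat.mul_le_mul_right _ hqμ
    exact PolZ_mono (by omega) (Ed_iter_mem c hd hLD q)
  have hconst : ∀ j, p + 1 ≤ j → j ≤ b' → trc (Trav t κ c x) a j = q := by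
    intro j hj
    induction j, hj using Nat.le_induction with
    | base => intro _; rfl
    | succ j hj ih =>
      intro hjb
      rw [trc_succ_neg _ (hno j (by omega) (by omega)), ih (by omega)]
  have hval : ∀ j ≤ b', (if a ≤ j then ((trc (Trav t κ c x) a j).choose q : ZMod (2 ^ M)) else 0) =
      if p + 1 ≤ j then 1 else 0 := by
    intro j hj
    by_cases hpj : p + 1 ≤ j
    · rw [if_pos (by omega), if_pos hpj, hconst j hpj hj, Nat.choose_self, Nat.cast_one]
    · rw [if_neg hpj]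
      split_ifs with haj
      · have h1 : trc (Trav t κ c x) a j ≤ trc (Trav t κ c x) a p := trc_mono _ (by omega)
        rw [Nat.choose_eq_zero_of_lt (by omega), Nat.cast_zero]
      · rfl
  refine ⟨_, hmem, fun j hj => ⟨?_, ?_⟩⟩
  · rw [Ed_iter_eval hx c L q j (by omega),
      Eit_ind (Trav t κ c x) (b := b) (fun i hi => (hLv i hi).1) q j (by omega), hval j hj]
  · rw [Ed_iter_eval hy c L q j (by omega),
      Eit_ind (Trav t κ c y) (b := b) (fun i hi => (hLv i hi).2) q j (by omega),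
      ← heq j (by omega), hval j hj]

/-- The interval before a traversal of a rare edge. -/
lemma right_child {a b D d μ a' b' : ℕ} {κ : List Bool} {h : List Bool → ℤ} {c : Bool}
    (hb : b ≤ n) (hR : RightOK k M x y a b D)
    (hd : h ∈ PolZ d) (hx : IsInd M t n x κ h) (hy : IsInd M t n y κ h)
    (hμ : trc (Trav t κ c x) a b ≤ μ)
    (heq : ∀ j ≤ b, trc (Trav t κ c x) a j = trc (Trav t κ c y) a j)
    (haa' : a ≤ a') (hab' : a' ≤ b') (hb' : b' < b) (hp : Trav t κ c x b')
    (hno : ∀ i, a' ≤ i → i < b' → ¬ Trav t κ c x i) :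
    RightOK k M x y a' b' (D + μ * (d + 1)) := by
  classical
  intro E hE G hG hv
  have hiff : ∀ i, a ≤ i → i < b → (Trav t κ c x i ↔ Trav t κ c y i) :=
    fun i h1 h2 => mem_iff_of_trc heq h1 h2
  have hs : trc (Trav t κ c x) b' b = trc (Trav t κ c y) b' b := by
    unfold trc
    congr 1
    refine Finset.filter_congr fun i hi => ?_
    have := Finset.mem_Ico.1 hi
    exact hiff i (by omega) this.2
  obtain ⟨s, hs1⟩ : ∃ s, trc (Trav t κ c x) b' b = s + 1 := by
    have h1 : trc (Trav t κ c x) b' (b' + 1) ≤ trc (Trav t κ c x) b' b := trc_mono _ hb'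
    rw [trc_succ_pos _ le_rfl hp] at h1
    exact ⟨trc (Trav t κ c x) b' b - 1, by omega⟩
  have hsμ : s + 1 ≤ μ := by
    rw [← hs1]
    refine le_trans ?_ hμ
    unfold trc
    exact Finset.card_le_card (Finset.filter_subset_filter _
      (Finset.Ico_subset_Ico (by omega) le_rfl))
  have hmem := Ed_iter_mem c hd hG (s + 1)
  have h2 : (s + 1) * (d + 1) ≤ μ * (d + 1) := Nat.mul_le_mul_right _ hsμ
  have h1 := hR (E + (s + 1) * (d + 1)) (by omega) _ hmem (by
    intro j hj
    rw [Ed_iter_eval hx c G (s + 1) j (by omega), Ed_iter_eval hy c G (s + 1) j (by omega)]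
    exact ⟨Eit_vanish _ (fun i hi => (hv i (by omega)).1) (s + 1) j hj,
      Eit_vanish _ (fun i hi => (hv i (by omega)).2) (s + 1) j hj⟩)
  rw [Ed_iter_eval hx c G (s + 1) b hb, Ed_iter_eval hy c G (s + 1) b hb,
    (Eit_extract (Trav t κ c x) (fun i hi => (hv i hi).1) hab' hp hno b s).2 hs1,
    (Eit_extract (Trav t κ c y) (fun i hi => (hv i hi).2) hab' ((hiff b' (by omega) hb').1 hp)
      (fun i h3 h4 h5 => hno i h3 h4 ((hiff i (by omega) (by omega)).2 h5)) b s).2
      (hs ▸ hs1)] at h1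
  exact h1

lemma RightOK.mono {a b D D' a' : ℕ} (h : RightOK k M x y a b D) (hD : D ≤ D') (ha : a ≤ a') :
    RightOK k M x y a' b D' := fun E hE G hG hv =>
  h E (by omega) G hG fun j hj => hv j (by omega)

lemma LeftOK.mono {a b D D' b' : ℕ} (h : LeftOK M x y a b D) (hD : D ≤ D') (hb : b' ≤ b) :
    LeftOK M x y a b' D' := by
  obtain ⟨L, hL, hv⟩ := h
  exact ⟨L, PolZ_mono hD hL, fun j hj => hv j (by omega)⟩

end

end DeckG
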