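import Pool.Agent.DeckG.Cls

/-!
# Amplification of parities and class indicators
-/

namespace DeckG

open DeckA

/-- The amplifying polynomial of degree `2 M - 1`. -/
def amp (M : ℕ) (z : ℤ) : ℤ :=
  ∑ j ∈ Finset.range M, ((2 * M - 1).choose (M + j) : ℤ) * (z ^ (M + j) * (1 - z) ^ (M - 1 - j))

lemma amp_even {M : ℕ} {z : ℤ} (hz : (2 : ℤ) ∣ z) : (2 : ℤ) ^ M ∣ amp M z := by
  refine Finset.dvd_sum fun j _ => ?_
  refine Dvd.dvd.mul_left (Dvd.dvd.mul_right ?_ _) _
  exact (pow_dvd_pow_of_dvd hz M).trans (pow_dvd_pow z (by omega))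

lemma amp_odd {M : ℕ} (hM : 1 ≤ M) {z : ℤ} (hz : (2 : ℤ) ∣ 1 - z) : (2 : ℤ) ^ M ∣ 1 - amp M z := by
  have h1 : (1 : ℤ) = (z + (1 - z)) ^ (2 * M - 1) := by
    rw [add_sub_cancel, one_pow]
  have h2 : (z + (1 - z)) ^ (2 * M - 1) =
      ∑ j ∈ Finset.range (M + M), z ^ j * (1 - z) ^ (2 * M - 1 - j) * ((2 * M - 1).choose j : ℤ) := by
    rw [add_pow]
    have : 2 * M - 1 + 1 = M + M := by omega
    rw [this]
  rw [Finset.sum_range_add] at h2
  have h3 : ∑ x ∈ Finset.range M, z ^ (M + x) * (1 - z) ^ (2 * M - 1 - (M + x)) *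
      ((2 * M - 1).choose (M + x) : ℤ) = amp M z := by
    unfold amp
    refine Finset.sum_congr rfl fun j _ => ?_
    have : 2 * M - 1 - (M + j) = M - 1 - j := by omega
    rw [this]; ring
  have h4 : 1 - amp M z = ∑ j ∈ Finset.range M,
      z ^ j * (1 - z) ^ (2 * M - 1 - j) * ((2 * M - 1).choose j : ℤ) := by
    rw [h3, ← h1] at h2
    exact sub_eq_of_eq_add h2
  rw [h4]
  refine Finset.dvd_sum fun j hj => ?_
  have hj' := Finset.mem_range.1 hj
  refine Dvd.dvd.mul_right (Dvd.dvd.mul_left ?_ _) _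
  exact (pow_dvd_pow_of_dvd hz M).trans (pow_dvd_pow _ (by omega))

lemma amp_mem {M D : ℕ} {g : List Bool → ℤ} (hg : g ∈ PolZ D) :
    (fun w => amp M (g w)) ∈ PolZ ((2 * M - 1) * D) := by
  have e : (fun w => amp M (g w)) = ∑ j ∈ Finset.range M,
      ((2 * M - 1).choose (M + j) : ℤ) • (g ^ (M + j) * (1 - g) ^ (M - 1 - j)) := by
    funext w
    simp [amp, Finset.sum_apply]
  rw [e]
  refine Submodule.sum_mem _ fun j hj => Submodule.smul_mem _ _ ?_
  have hj' := Finset.mem_range.1 hj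
  have h1 := pow_memZ hg (M + j)
  have h2 := pow_memZ (sub_mem (one_memZ D) hg) (M - 1 - j)
  refine PolZ_mono ?_ (mul_memZ h1 h2)
  rw [← Nat.add_mul]
  refine Nat.mul_le_mul_right D (by omega)

/-- The indicator of a class, modulo `2 ^ M`, on a finite set of words. -/
theorem exists_ind (t M : ℕ) (hM : 1 ≤ M) (A : Finset (List Bool)) (hA : A.Nonempty)
    (κ : List Bool) : ∃ h ∈ PolZ ((2 * M - 1) * (t * Nat.log 2 A.card)), ∀ u ∈ A,
      (Cl t κ u → ((h u : ℤ) : ZMod (2 ^ M)) = 1) ∧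
      (¬ Cl t κ u → ((h u : ℤ) : ZMod (2 ^ M)) = 0) := by
  classical
  obtain ⟨g, hg, -, hgf⟩ := interp t A.card A rfl hA (fun u => if Cl t κ u then 1 else 0)
    (fun u w huw => by
      have : Cl t κ u ↔ Cl t κ w := ⟨fun h => h.trans huw, fun h => h.trans huw.symm⟩
      simp only [this])
  refine ⟨fun w => amp M (g w), amp_mem hg, fun u hu => ⟨fun h => ?_, fun h => ?_⟩⟩
  · have h1 := hgf u hu
    rw [if_pos h] at h1
    have h2 : (2 : ℤ) ∣ 1 - g u := by
      have : ((1 - g u : ℤ) : ZMod 2) = 0 := by push_cast; rw [h1]; ring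
      have := (ZMod.intCast_zmod_eq_zero_iff_dvd (1 - g u) 2).1 this
      exact_mod_cast this
    have h3 := amp_odd hM h2
    have h4 : ((1 - amp M (g u) : ℤ) : ZMod (2 ^ M)) = 0 := by
      rw [ZMod.intCast_zmod_eq_zero_iff_dvd]
      exact_mod_cast h3
    push_cast at h4
    exact (sub_eq_zero.1 h4).symm
  · have h1 := hgf u hu
    rw [if_neg h] at h1
    have h2 : (2 : ℤ) ∣ g u := by
      have := (ZMod.intCast_zmod_eq_zero_iff_dvd (g u) 2).1 h1
      exact_mod_cast this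
    have h3 := amp_even (M := M) h2
    rw [ZMod.intCast_zmod_eq_zero_iff_dvd]
    exact_mod_cast h3

end DeckG
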