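import Pool.Agent.DeckG.Pol

/-!
# Parity classes of words
-/

namespace DeckG

open DeckA

lemma cnt_append : ∀ (w p v : List Bool),
    cnt v (w ++ p) = ∑ i ∈ Finset.range (v.length + 1), cnt (v.take i) w * cnt (v.drop i) p
  | [], p, [] => by simp
  | [], p, c :: z => by
    rw [Finset.sum_range_succ']
    simp
  | d :: w, p, [] => by simp
  | d :: w, p, c :: z => by
    rw [List.cons_append, cnt_cons_cons, cnt_append w p (c :: z), cnt_append w p z,
      Finset.sum_range_succ', Finset.sum_range_succ' _ ((c :: z).length)]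
    simp only [List.take_succ_cons, List.drop_succ_cons, List.take_zero, List.drop_zero,
      cnt_nil, one_mul, List.length_cons, cnt_cons_cons]
    have : ∑ k ∈ Finset.range (z.length + 1),
        (cnt (c :: List.take k z) w + if c = d then cnt (List.take k z) w else 0)
          * cnt (List.drop k z) p
        = ∑ k ∈ Finset.range (z.length + 1), cnt (c :: List.take k z) w * cnt (List.drop k z) p
          + if c = d then ∑ k ∈ Finset.range (z.length + 1),
              cnt (List.take k z) w * cnt (List.drop k z) p else 0 := by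
      split_ifs
      · rw [← Finset.sum_add_distrib]
        exact Finset.sum_congr rfl fun k _ => by ring
      · simp
    rw [this]
    split_ifs <;> ring

/-- Two words are equivalent (at level `t`) if all words of length at most `t` have the same number
of occurrences modulo `2` in both. -/
def Cl (t : ℕ) (u w : List Bool) : Prop :=
  ∀ v : List Bool, v.length ≤ t → (cnt v u : ZMod 2) = (cnt v w : ZMod 2)

lemma Cl.refl (t : ℕ) (u : List Bool) : Cl t u u := fun _ _ => rfl

lemma Cl.symm {t : ℕ} {u w : List Bool} (h : Cl t u w) : Cl t w u := fun v hv => (h v hv).symm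

lemma Cl.trans {t : ℕ} {u v w : List Bool} (h : Cl t u v) (h' : Cl t v w) : Cl t u w :=
  fun z hz => (h z hz).trans (h' z hz)

lemma cnt_append2 (w p v : List Bool) : (cnt v (w ++ p) : ZMod 2) =
    ∑ i ∈ Finset.range (v.length + 1), (cnt (v.take i) w : ZMod 2) * (cnt (v.drop i) p : ZMod 2) := by
  rw [cnt_append]; push_cast; rfl

lemma Cl.append {t : ℕ} {p p' : List Bool} (h : Cl t p p') (w : List Bool) :
    Cl t (w ++ p) (w ++ p') := by
  intro v hv
  rw [cnt_append2, cnt_append2]
  refine Finset.sum_congr rfl fun i _ => ?_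
  rw [h _ (by simp; omega)]

lemma Cl.cancel {t : ℕ} {p p' w w' : List Bool} (h : Cl t p p') (h' : Cl t (w ++ p) (w' ++ p')) :
    Cl t w w' := by
  have key : ∀ (m : ℕ) (v : List Bool), v.length = m → m ≤ t →
      (cnt v w : ZMod 2) = (cnt v w' : ZMod 2) := by
    intro m
    induction m using Nat.strong_induction_on with
    | _ m ih =>
      intro v hv hm
      have e := h' v (by omega)
      rw [cnt_append2, cnt_append2, Finset.sum_range_succ, Finset.sum_range_succ] at e
      simp only [List.take_length, List.drop_length, cnt_nil, Nat.cast_one, mul_one] at e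
      have e2 : ∑ i ∈ Finset.range v.length, (cnt (v.take i) w : ZMod 2) * (cnt (v.drop i) p : ZMod 2)
          = ∑ i ∈ Finset.range v.length, (cnt (v.take i) w' : ZMod 2) * (cnt (v.drop i) p' : ZMod 2) := by
        refine Finset.sum_congr rfl fun i hi => ?_
        have hi' := Finset.mem_range.1 hi
        rw [h _ (by simp; omega), ih i (by omega) (v.take i) (by simp; omega) (by omega)]
      rw [e2] at e
      exact add_left_cancel e
  intro v hv
  exact key _ v rfl hv

lemma eq_of_Cl {t : ℕ} {w w' : List Bool} (h : Cl t w w') (hl : w.length = w'.length)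
    (ht : w.length ≤ t) : w = w' := by
  have e := h w ht
  rw [cnt_self, cnt_same_length w' w hl.symm] at e
  by_contra hne
  simp [hne] at e

lemma not_Cl_nil {t : ℕ} {w : List Bool} (h : w ≠ []) (ht : w.length ≤ t) : ¬ Cl t w [] := by
  intro hc
  have e := hc w ht
  rw [cnt_self, cnt_zero_of_lt [] w (by simpa [List.length_pos_iff] using h)] at e
  simp at e

/-- A class is not visited twice within `t` steps. -/
lemma not_Cl_near {t : ℕ} (x : ℕ → Bool) {i j : ℕ} (hij : i < j) (hj : j ≤ i + t) :
    ¬ Cl t (pre x i) (pre x j) := by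
  obtain ⟨s, rfl⟩ := Nat.exists_eq_add_of_lt hij
  intro hc
  have e : pre x (i + s + 1) = win x i (s + 1) ++ pre x i := by
    rw [← pre_add]; rfl
  rw [e] at hc
  have h2 : Cl t ([] ++ pre x i) (win x i (s + 1) ++ pre x i) := hc
  have h3 := (Cl.cancel (Cl.refl t (pre x i)) h2).symm
  refine not_Cl_nil ?_ ?_ h3
  · intro h0
    have := congrArg List.length h0
    simp at this
  · simp; omega

/-! ## Interpolation -/

lemma zmod2_cases (a : ZMod 2) : a = 0 ∨ a = 1 := by
  revert a; decide

/-- Every function on classes is, on a finite set of `m` words, the parity of a combination of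
counts of words of length at most `t log₂ m`. -/
theorem interp (t : ℕ) : ∀ (m : ℕ) (A : Finset (List Bool)), A.card = m → A.Nonempty →
    ∀ f : List Bool → ZMod 2, (∀ u w, Cl t u w → f u = f w) →
    ∃ g ∈ PolZ (t * Nat.log 2 m), (∀ u w, Cl t u w → ((g u : ℤ) : ZMod 2) = ((g w : ℤ) : ZMod 2)) ∧
      ∀ u ∈ A, ((g u : ℤ) : ZMod 2) = f u := by
  intro m
  induction m using Nat.strong_induction_on with
  | _ m ih =>
    intro A hA hne f hf
    by_cases hall : ∀ u ∈ A, ∀ w ∈ A, Cl t u w
    · obtain ⟨u0, hu0⟩ := hne
      rcases zmod2_cases (f u0) with h0 | h1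
      · refine ⟨fun _ => 0, const_memZ _ 0, fun _ _ _ => rfl, fun u hu => ?_⟩
        rw [hf u u0 (hall u hu u0 hu0), h0]; simp
      · refine ⟨fun _ => 1, const_memZ _ 1, fun _ _ _ => rfl, fun u hu => ?_⟩
        rw [hf u u0 (hall u hu u0 hu0), h1]; simp
    · push Not at hall
      obtain ⟨u, hu, w, hw, hnc⟩ := hall
      unfold Cl at hnc
      push Not at hnc
      obtain ⟨v, hv, hne'⟩ := hnc
      -- the smaller half of the splitting by the parity of `cnt v`
      have main : ∀ ε : ℤ, (A.filter fun z => ((cnt v z : ZMod 2) + (ε : ZMod 2) = 1)).card ≤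
            (A.filter fun z => ¬ ((cnt v z : ZMod 2) + (ε : ZMod 2) = 1)).card →
          (A.filter fun z => ((cnt v z : ZMod 2) + (ε : ZMod 2) = 1)).Nonempty →
          (A.filter fun z => ¬ ((cnt v z : ZMod 2) + (ε : ZMod 2) = 1)).Nonempty →
          ∃ g ∈ PolZ (t * Nat.log 2 m),
            (∀ u w, Cl t u w → ((g u : ℤ) : ZMod 2) = ((g w : ℤ) : ZMod 2)) ∧
            ∀ u ∈ A, ((g u : ℤ) : ZMod 2) = f u := by
        intro ε hle hne1 hne2
        have hsum := Finset.card_filter_add_card_filter_not (s := A)
          (fun z => ((cnt v z : ZMod 2) + (ε : ZMod 2) = 1))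
        set B := A.filter fun z => ((cnt v z : ZMod 2) + (ε : ZMod 2) = 1) with hB
        set B' := A.filter fun z => ¬ ((cnt v z : ZMod 2) + (ε : ZMod 2) = 1) with hB'
        have hB0 := Finset.card_pos.2 hne1
        have hB0' := Finset.card_pos.2 hne2
        obtain ⟨g1, hg1, hg1c, hg1f⟩ := ih B'.card (by omega) B' rfl hne2 f hf
        obtain ⟨g2, hg2, hg2c, hg2f⟩ := ih B.card (by omega) B rfl hne1
          (fun z => f z - ((g1 z : ℤ) : ZMod 2))
          (fun a b hab => by simp only [hf a b hab, hg1c a b hab])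
        have hlog1 : Nat.log 2 B'.card ≤ Nat.log 2 m := Nat.log_mono_right (by omega)
        have hlog2 : Nat.log 2 B.card + 1 ≤ Nat.log 2 m := by
          have h1 : Nat.log 2 (B.card * 2) = Nat.log 2 B.card + 1 :=
            Nat.log_mul_base (by norm_num) (by omega)
          rw [← h1]
          exact Nat.log_mono_right (by omega)
        refine ⟨g1 + ((fun z => (cnt v z : ℤ)) + fun _ => ε) * g2, ?_, ?_, ?_⟩
        · refine add_mem (PolZ_mono (Nat.mul_le_mul_left t hlog1) hg1) ?_
          have h1 := mul_memZ (add_mem (cnt_memZ hv) (const_memZ t ε)) hg2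
          refine PolZ_mono ?_ h1
          calc t + t * Nat.log 2 B.card = t * (Nat.log 2 B.card + 1) := by ring
            _ ≤ t * Nat.log 2 m := Nat.mul_le_mul_left t hlog2
        · intro a b hab
          simp only [Pi.add_apply, Pi.mul_apply]
          push_cast
          rw [hg1c a b hab, hg2c a b hab, hab v hv]
        · intro z hz
          simp only [Pi.add_apply, Pi.mul_apply]
          push_cast
          by_cases hzB : (cnt v z : ZMod 2) + (ε : ZMod 2) = 1
          · rw [hzB, hg2f z (Finset.mem_filter.2 ⟨hz, hzB⟩)]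
            ring
          · have h0 : (cnt v z : ZMod 2) + (ε : ZMod 2) = 0 := by
              rcases zmod2_cases ((cnt v z : ZMod 2) + (ε : ZMod 2)) with h | h
              · exact h
              · exact absurd h hzB
            rw [h0, hg1f z (Finset.mem_filter.2 ⟨hz, hzB⟩)]
            ring
      have hcases : ∀ z : List Bool, ¬ ((cnt v z : ZMod 2) + ((0 : ℤ) : ZMod 2) = 1) ↔
          (cnt v z : ZMod 2) + ((1 : ℤ) : ZMod 2) = 1 := by
        intro z
        generalize (cnt v z : ZMod 2) = a
        revert a; decide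
      have hcases' : ∀ z : List Bool, ((cnt v z : ZMod 2) + ((0 : ℤ) : ZMod 2) = 1) ↔
          ¬ ((cnt v z : ZMod 2) + ((1 : ℤ) : ZMod 2) = 1) := by
        intro z
        generalize (cnt v z : ZMod 2) = a
        revert a; decide
      have hmem : (A.filter fun z => ((cnt v z : ZMod 2) + ((0 : ℤ) : ZMod 2) = 1)).Nonempty ∧
          (A.filter fun z => ¬ ((cnt v z : ZMod 2) + ((0 : ℤ) : ZMod 2) = 1)).Nonempty := by
        by_cases h1 : (cnt v u : ZMod 2) + ((0 : ℤ) : ZMod 2) = 1
        · refine ⟨⟨u, Finset.mem_filter.2 ⟨hu, h1⟩⟩, ⟨w, Finset.mem_filter.2 ⟨hw, ?_⟩⟩⟩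
          intro h2
          exact hne' (add_right_cancel (h1.trans h2.symm))
        · refine ⟨⟨w, Finset.mem_filter.2 ⟨hw, ?_⟩⟩, ⟨u, Finset.mem_filter.2 ⟨hu, h1⟩⟩⟩
          revert h1 hne'
          generalize (cnt v u : ZMod 2) = a
          generalize (cnt v w : ZMod 2) = b
          revert a b; decide
      rcases le_total (A.filter fun z => ((cnt v z : ZMod 2) + ((0 : ℤ) : ZMod 2) = 1)).card
          (A.filter fun z => ¬ ((cnt v z : ZMod 2) + ((0 : ℤ) : ZMod 2) = 1)).card with hle | hle
      · exact main 0 hle hmem.1 hmem.2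
      · refine main 1 ?_ ?_ ?_
        · simpa only [hcases, ← hcases'] using hle
        · simpa only [hcases] using hmem.2
        · simpa only [← hcases'] using hmem.1

end DeckG
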