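import Pool.Agent.DeckG.Acc

/-!
# The recursion on gaps
-/

namespace DeckG

open DeckA

open Classical in
/-- The times of `[a, b)` at which `x` traverses an edge that it traverses at most `μ` times in
`[a, b)`. -/
noncomputable def rare (t μ : ℕ) (x : ℕ → Bool) (a b : ℕ) : Finset ℕ :=
  (Finset.Ico a b).filter fun i => trc (Trav t (pre x i) (x i) x) a b ≤ μ

lemma mem_rare {t μ : ℕ} {x : ℕ → Bool} {a b i : ℕ} : i ∈ rare t μ x a b ↔
    (a ≤ i ∧ i < b) ∧ trc (Trav t (pre x i) (x i) x) a b ≤ μ := by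
  classical
  unfold rare
  rw [Finset.mem_filter, Finset.mem_Ico]

lemma Trav_self (t : ℕ) (x : ℕ → Bool) (i : ℕ) : Trav t (pre x i) (x i) x i :=
  ⟨Cl.refl _ _, rfl⟩

lemma Trav_congr {t : ℕ} {x : ℕ → Bool} {κ κ' : List Bool} {c c' : Bool} (h : Cl t κ κ')
    (hc : c = c') (i : ℕ) : Trav t κ c x i ↔ Trav t κ' c' x i := by
  subst hc
  exact ⟨fun h' => ⟨h.symm.trans h'.1, h'.2⟩, fun h' => ⟨h.trans h'.1, h'.2⟩⟩

lemma trc_congr {τ σ : ℕ → Prop} (h : ∀ i, τ i ↔ σ i) (a b : ℕ) : trc τ a b = trc σ a b := by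
  have : τ = σ := funext fun i => propext (h i)
  rw [this]

/-- A time at which a rare edge is traversed is rare. -/
lemma rare_of_Trav {t μ : ℕ} {x : ℕ → Bool} {a b i j : ℕ} (hi : i ∈ rare t μ x a b)
    (hj : a ≤ j ∧ j < b) (h : Trav t (pre x i) (x i) x j) : j ∈ rare t μ x a b := by
  rw [mem_rare] at hi ⊢
  refine ⟨hj, ?_⟩
  rw [trc_congr (fun m => Trav_congr h.1.symm h.2.symm m)]
  exact hi.2

/-- The gap of a finite set of times around a time outside. -/
lemma exists_gap (T : Finset ℕ) {a b i : ℕ} (hai : a ≤ i) (hib : i < b) (hi : i ∉ T) :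
    ∃ a' b', a ≤ a' ∧ a' ≤ i ∧ i < b' ∧ b' ≤ b ∧ (∀ j ∈ T, ¬ (a' ≤ j ∧ j < b')) ∧
      (a' = a ∨ ∃ p ∈ T, a ≤ p ∧ p < i ∧ a' = p + 1) ∧ (b' = b ∨ (b' ∈ T ∧ b' < b)) := by
  classical
  obtain ⟨a', ha1, ha2, ha3, ha4⟩ : ∃ a', a ≤ a' ∧ a' ≤ i ∧ (∀ j ∈ T, ¬ (a' ≤ j ∧ j < i)) ∧
      (a' = a ∨ ∃ p ∈ T, a ≤ p ∧ p < i ∧ a' = p + 1) := by
    by_cases hne : (T.filter fun j => a ≤ j ∧ j < i).Nonempty
    · obtain ⟨p, hp, hmax⟩ := Finset.exists_max_image _ id hne
      obtain ⟨hpT, hp1, hp2⟩ := Finset.mem_filter.1 hp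
      refine ⟨p + 1, by omega, by omega, ?_, Or.inr ⟨p, hpT, hp1, hp2, rfl⟩⟩
      rintro j hj ⟨h1, h2⟩
      have := hmax j (Finset.mem_filter.2 ⟨hj, by omega, h2⟩)
      simp only [id] at this
      omega
    · refine ⟨a, le_rfl, hai, ?_, Or.inl rfl⟩
      rintro j hj ⟨h1, h2⟩
      exact hne ⟨j, Finset.mem_filter.2 ⟨hj, h1, h2⟩⟩
  obtain ⟨b', hb1, hb2, hb3, hb4⟩ : ∃ b', i < b' ∧ b' ≤ b ∧ (∀ j ∈ T, ¬ (i < j ∧ j < b')) ∧
      (b' = b ∨ (b' ∈ T ∧ b' < b)) := by
    by_cases hne : (T.filter fun j => i < j ∧ j < b).Nonempty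
    · obtain ⟨p, hp, hmin⟩ := Finset.exists_min_image _ id hne
      obtain ⟨hpT, hp1, hp2⟩ := Finset.mem_filter.1 hp
      refine ⟨p, by omega, by omega, ?_, Or.inr ⟨hpT, hp2⟩⟩
      rintro j hj ⟨h1, h2⟩
      have := hmin j (Finset.mem_filter.2 ⟨hj, h1, by omega⟩)
      simp only [id] at this
      omega
    · refine ⟨b, hib, le_rfl, ?_, Or.inl rfl⟩
      rintro j hj ⟨h1, h2⟩
      exact hne ⟨j, Finset.mem_filter.2 ⟨hj, h1, h2⟩⟩
  refine ⟨a', b', ha1, ha2, hb1, hb2, ?_, ha4, hb4⟩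
  rintro j hj ⟨h1, h2⟩
  rcases Nat.lt_trichotomy j i with h | h | h
  · exact ha3 j hj ⟨h1, h⟩
  · subst h; exact hi hj
  · exact hb3 j hj ⟨h, h2⟩

section

variable {k M t n d μ : ℕ} {x y : ℕ → Bool}

/-- Rare times: the letters agree. -/
lemma eq_of_rare {a b D : ℕ} (hM : n < 2 ^ M) (hb : b ≤ n)
    (hh : ∀ κ, ∃ h ∈ PolZ d, IsInd M t n x κ h ∧ IsInd M t n y κ h)
    (hL : LeftOK M x y a b D) (hR : RightOK k M x y a b D)
    (hk : D + (d + 1) + D ≤ k) (hk' : D + μ * (d + 1) + 1 + D ≤ k)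
    {i : ℕ} (hi : i ∈ rare t μ x a b) : x i = y i := by
  obtain ⟨⟨hai, hib⟩, hμ⟩ := mem_rare.1 hi
  obtain ⟨h, hd, hx, hy⟩ := hh (pre x i)
  have heq := times (x i) hM (by omega) hb hL hR hd hx hy hμ hk hk'
  exact ((mem_iff_of_trc heq hai hib).1 (Trav_self t x i)).2

/-- The gaps between rare times are accessible. -/
lemma gap_acc {a b D : ℕ} (hM : n < 2 ^ M) (hb : b ≤ n)
    (hh : ∀ κ, ∃ h ∈ PolZ d, IsInd M t n x κ h ∧ IsInd M t n y κ h)
    (hL : LeftOK M x y a b D) (hR : RightOK k M x y a b D)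
    (hk : D + (d + 1) + D ≤ k) (hk' : D + μ * (d + 1) + 1 + D ≤ k)
    {i : ℕ} (hai : a ≤ i) (hib : i < b) (hi : i ∉ rare t μ x a b) :
    ∃ a' b', a ≤ a' ∧ a' ≤ i ∧ i < b' ∧ b' ≤ b ∧
      (b' - a') + (rare t μ x a b).card ≤ b - a ∧
      LeftOK M x y a' b' (D + μ * (d + 1)) ∧ RightOK k M x y a' b' (D + μ * (d + 1)) := by
  classical
  obtain ⟨a', b', h1, h2, h3, h4, h5, h6, h7⟩ := exists_gap (rare t μ x a b) hai hib hi
  refine ⟨a', b', h1, h2, h3, h4, ?_, ?_, ?_⟩
  · have hdisj : Disjoint (Finset.Ico a' b') (rare t μ x a b) := by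
      rw [Finset.disjoint_left]
      intro j hj hj'
      exact h5 j hj' (Finset.mem_Ico.1 hj)
    have hsub : Finset.Ico a' b' ∪ rare t μ x a b ⊆ Finset.Ico a b := by
      intro j hj
      rcases Finset.mem_union.1 hj with h | h
      · have := Finset.mem_Ico.1 h
        exact Finset.mem_Ico.2 ⟨by omega, by omega⟩
      · exact Finset.mem_Ico.2 (mem_rare.1 h).1
    have := Finset.card_le_card hsub
    rw [Finset.card_union_of_disjoint hdisj, Nat.card_Ico, Nat.card_Ico] at this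
    exact this
  · rcases h6 with h6 | ⟨p, hp, hp1, hp2, h6⟩
    · subst h6
      exact hL.mono (by omega) h4
    · subst h6
      obtain ⟨-, hμ⟩ := mem_rare.1 hp
      obtain ⟨h, hd, hx, hy⟩ := hh (pre x p)
      have heq := times (x p) hM (by omega) hb hL hR hd hx hy hμ hk hk'
      refine left_child hb hL hd hx hy hμ heq hp1 (by omega) h4 (Trav_self t x p) ?_
      intro j hj1 hj2 hj3
      exact h5 j (rare_of_Trav hp ⟨by omega, by omega⟩ hj3) ⟨by omega, hj2⟩
  · rcases h7 with h7 | ⟨h7, h7'⟩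
    · subst h7
      exact hR.mono (by omega) h1
    · obtain ⟨-, hμ⟩ := mem_rare.1 h7
      obtain ⟨h, hd, hx, hy⟩ := hh (pre x b')
      have heq := times (x b') hM (by omega) hb hL hR hd hx hy hμ hk hk'
      refine right_child hb hR hd hx hy hμ heq h1 (by omega) h7' (Trav_self t x b') ?_
      intro j hj1 hj2 hj3
      exact h5 j (rare_of_Trav h7 ⟨by omega, by omega⟩ hj3) ⟨hj1, hj2⟩

/-! ## The final intervals -/

/-- Counts inside a window. -/
lemma exists_wcount {a b D : ℕ} (hL : LeftOK M x y a b D) : ∀ v : List Bool,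
    ∃ G ∈ PolZ (D + v.length), ∀ j ≤ b, ((G (pre x j) : ℤ) : ZMod (2 ^ M)) =
        (if a ≤ j then (cnt v (win x a (j - a)) : ZMod (2 ^ M)) else 0) ∧
      ((G (pre y j) : ℤ) : ZMod (2 ^ M)) =
        (if a ≤ j then (cnt v (win y a (j - a)) : ZMod (2 ^ M)) else 0) := by
  intro v
  induction v with
  | nil =>
    obtain ⟨L, hL, hv⟩ := hL
    exact ⟨L, by simpa using hL, fun j hj => by simpa using hv j hj⟩
  | cons c z ih =>
    obtain ⟨G, hG, hv⟩ := ih
    have key : ∀ (w : ℕ → Bool), (∀ j ≤ b, ((G (pre w j) : ℤ) : ZMod (2 ^ M)) =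
        (if a ≤ j then (cnt z (win w a (j - a)) : ZMod (2 ^ M)) else 0)) →
        ∀ j ≤ b, ((J c G (pre w j) : ℤ) : ZMod (2 ^ M)) =
        (if a ≤ j then (cnt (c :: z) (win w a (j - a)) : ZMod (2 ^ M)) else 0) := by
      intro w hw j
      induction j with
      | zero =>
        intro _
        have : (J c G (pre w 0)) = 0 := rfl
        rw [this]
        simp [win, pre]
      | succ j ihj =>
        intro hj
        have h1 : J c G (pre w (j + 1)) = J c G (pre w j) + if c = w j then G (pre w j) else 0 := rfl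
        rw [h1]
        push_cast
        rw [ihj (by omega)]
        by_cases ha : a ≤ j
        · have e1 : j + 1 - a = (j - a) + 1 := by omega
          have e2 : win w a (j - a + 1) = w j :: win w a (j - a) := by
            have : w (a + (j - a)) = w j := by congr 1; omega
            rw [← this]; rfl
          rw [if_pos ha, if_pos (show a ≤ j + 1 by omega), e1, e2, cnt_cons_cons]
          push_cast
          congr 1
          by_cases hc : c = w j
          · rw [if_pos hc, if_pos hc, hw j (by omega), if_pos ha]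
          · rw [if_neg hc, if_neg hc]
        · have e3 : (if c = w j then ((G (pre w j) : ℤ) : ZMod (2 ^ M)) else 0) = 0 := by
            split_ifs
            · rw [hw j (by omega), if_neg ha]
            · rfl
          rw [if_neg ha, e3, add_zero]
          by_cases ha' : a ≤ j + 1
          · have e4 : j + 1 - a = 0 := by omega
            have e5 : win w a 0 = [] := rfl
            rw [if_pos ha', e4, e5, cnt_cons_nil, Nat.cast_zero]
          · rw [if_neg ha']
    refine ⟨J c G, ?_, fun j hj => ⟨key x (fun j hj => (hv j hj).1) j hj,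
      key y (fun j hj => (hv j hj).2) j hj⟩⟩
    have := J_mem c hG
    exact PolZ_mono (by rw [List.length_cons]; omega) this

lemma eq_of_pre_eq {f g : ℕ → Bool} : ∀ {s : ℕ}, pre f s = pre g s → ∀ i < s, f i = g i
  | 0, _, i, hi => by omega
  | s + 1, h, i, hi => by
    obtain ⟨h1, h2⟩ := List.cons_eq_cons.1 h
    rcases Nat.lt_or_ge i s with h' | h'
    · exact eq_of_pre_eq h2 i h'
    · obtain rfl : i = s := by omega
      exact h1

/-- On an accessible interval all counts of short words agree. -/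
lemma counts_eq {a b D k' : ℕ} (hab : a ≤ b) (hL : LeftOK M x y a b D)
    (hR : RightOK k M x y a b D) (hk : D + k' + D ≤ k) (v : List Bool) (hv : v.length ≤ k') :
    ((cnt v (win x a (b - a)) : ℕ) : ZMod (2 ^ M)) = (cnt v (win y a (b - a)) : ZMod (2 ^ M)) := by
  obtain ⟨G, hG, hGv⟩ := exists_wcount hL v
  have h1 := hR (D + v.length) (by omega) G hG (by
    intro j hj
    rw [(hGv j (by omega)).1, (hGv j (by omega)).2, if_neg (by omega), if_neg (by omega)]
    exact ⟨rfl, rfl⟩)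
  rw [(hGv b le_rfl).1, (hGv b le_rfl).2, if_pos hab, if_pos hab] at h1
  exact h1

/-- **The recursion.** -/
theorem core {R k' S : ℕ} {η : ℝ}
    (hk : ∀ z : List Bool, z.length ≤ k → cnt z (pre x n) = cnt z (pre y n))
    (hM : n < 2 ^ M)
    (hh : ∀ κ, ∃ h ∈ PolZ d, IsInd M t n x κ h ∧ IsInd M t n y κ h)
    (hη : η ≤ 1)
    (hdens : ∀ a b, a + S ≤ b → b ≤ n → η * ((b : ℝ) - a) ≤ ((rare t μ x a b).card : ℝ))
    (hfin : ∀ u w : List Bool, u.length = w.length → u.length < S →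
      (∀ v : List Bool, v.length ≤ k' →
        ((cnt v u : ℕ) : ZMod (2 ^ M)) = (cnt v w : ZMod (2 ^ M))) → u = w)
    (hR : (1 - η) ^ R * (n : ℝ) < S)
    (hcost : 2 * (R * (μ * (d + 1))) + μ * (d + 1) + (d + 1) + 1 + k' ≤ k) :
    ∀ i < n, x i = y i := by
  have claim : ∀ r a b D, LeftOK M x y a b D → RightOK k M x y a b D → a ≤ b → b ≤ n →
      2 * (D + r * (μ * (d + 1))) + μ * (d + 1) + (d + 1) + 1 + k' ≤ k →
      (1 - η) ^ r * ((b : ℝ) - a) < S → ∀ i, a ≤ i → i < b → x i = y i := by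
    intro r
    induction r with
    | zero =>
      intro a b D hL hRt hab hb hc hlt i hai hib
      have hlt' : b - a < S := by
        have : (b : ℝ) - a = ((b - a : ℕ) : ℝ) := by rw [Nat.cast_sub hab]
        rw [this, pow_zero, one_mul] at hlt
        exact_mod_cast hlt
      have h1 := hfin (win x a (b - a)) (win y a (b - a)) (by simp) (by simpa using hlt')
        (fun v hv => counts_eq hab hL hRt (by omega) v hv)
      have h2 := eq_of_pre_eq h1 (i - a) (by omega)
      have h3 : a + (i - a) = i := by omega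
      simpa only [h3] using h2
    | succ r ih =>
      intro a b D hL hRt hab hb hc hlt i hai hib
      by_cases hS : b - a < S
      · have h1 := hfin (win x a (b - a)) (win y a (b - a)) (by simp) (by simpa using hS)
          (fun v hv => counts_eq hab hL hRt (by omega) v hv)
        have h2 := eq_of_pre_eq h1 (i - a) (by omega)
        have h3 : a + (i - a) = i := by omega
        simpa only [h3] using h2
      · have e : (r + 1) * (μ * (d + 1)) = r * (μ * (d + 1)) + μ * (d + 1) := by ring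
        by_cases hi : i ∈ rare t μ x a b
        · exact eq_of_rare hM hb hh hL hRt (by omega) (by omega) hi
        · obtain ⟨a', b', h1, h2, h3, h4, h5, h6, h7⟩ :=
            gap_acc hM hb hh hL hRt (by omega) (by omega) hai hib hi
          refine ih a' b' _ h6 h7 (by omega) (by omega) (by omega) ?_ i h2 h3
          have h8 := hdens a b (by omega) hb
          have h9 : ((b' : ℝ) - a') ≤ (1 - η) * ((b : ℝ) - a) := by
            have h10 : ((b' - a' : ℕ) : ℝ) + ((rare t μ x a b).card : ℝ) ≤ ((b - a : ℕ) : ℝ) := by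
              exact_mod_cast h5
            rw [Nat.cast_sub (by omega), Nat.cast_sub hab] at h10
            linarith
          have h11 : (0 : ℝ) ≤ (1 - η) ^ r := pow_nonneg (by linarith) r
          calc (1 - η) ^ r * ((b' : ℝ) - a') ≤ (1 - η) ^ r * ((1 - η) * ((b : ℝ) - a)) :=
                mul_le_mul_of_nonneg_left h9 h11
            _ = (1 - η) ^ (r + 1) * ((b : ℝ) - a) := by ring
            _ < S := hlt
  intro i hi
  refine claim R 0 n 0 ?_ ?_ (Nat.zero_le n) le_rfl (by omega) (by simpa using hR) i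
    (Nat.zero_le i) hi
  · exact ⟨1, one_memZ 0, fun j _ => by simp⟩
  · intro E hE G hG _
    rw [evalZ_eq (k := k) hk (PolZ_mono (by omega) hG)]

end

end DeckG
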