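import Pool.Agent.DeckA.Defs

/-!
# The number of factors of a word
-/

namespace DeckG

/-- The number of different factors (contiguous subwords) of length `l` of the word `v`. -/
noncomputable def nfac (l : ℕ) (v : List Bool) : ℕ :=
  {w : List Bool | w <:+: v ∧ w.length = l}.ncard

end DeckG
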