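import Pool.Agent.DeckG.Ent

/-!
# Many rare times
-/

namespace DeckG

open DeckA

lemma sum_inv_mlt (l : ℕ) (x : ℕ → Bool) (I : Finset ℕ) :
    ∑ i ∈ I, (1 : ℝ) / (mlt l x I i) = ((I.image fun i => win x i l).card : ℝ) := by
  classical
  unfold mlt
  rw [Finset.sum_comp (fun v => (1 : ℝ) / ((I.filter fun j => win x j l = v).card : ℝ))
    (fun i => win x i l), Finset.cast_card]
  refine Finset.sum_congr rfl fun v hv => ?_
  obtain ⟨i, hi, hiv⟩ := Finset.mem_image.1 hv
  have h : i ∈ I.filter fun j => win x j l = v := Finset.mem_filter.2 ⟨hi, hiv⟩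
  have h2 : (0 : ℝ) < (I.filter fun j => win x j l = v).card := by
    exact_mod_cast Finset.card_pos.2 ⟨i, h⟩
  rw [nsmul_eq_mul]
  field_simp

/-- In a time interval with many different `l`-factors there are many rare times. -/
theorem dens {t l s : ℕ} {δ : ℝ} (x : ℕ → Bool) {a b : ℕ} (hl : 1 ≤ l) (hs : 1 ≤ s)
    (ht : t = s * l) (hab : a + t ≤ b) (hδ : 0 < δ)
    (hbig : 8 * Real.log ((t + 1) * ((b : ℝ) + 1 - a)) ≤ δ * Real.log 2 * s)
    (hD : δ * ((b : ℝ) - a) ≤
      (((Finset.Ico a (b + 1 - l)).image fun i => win x i l).card : ℝ)) :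
    δ / 4 * ((b : ℝ) - a) ≤ ((rare t (⌊4 / δ⌋₊ + 1) x a b).card : ℝ) := by
  classical
  have hlt : l ≤ t := by rw [ht]; exact Nat.le_mul_of_pos_left l hs
  set I := Finset.Ico a (b + 1 - l) with hI
  set B : ℝ := Real.log ((t + 1) * ((b : ℝ) + 1 - a)) with hB
  set m : ℝ := (b : ℝ) - a with hm
  have hm0 : (t : ℝ) ≤ m := by
    have : ((a + t : ℕ) : ℝ) ≤ b := by exact_mod_cast hab
    push_cast at this
    rw [hm]; linarith
  have ht1 : (1 : ℝ) ≤ t := by exact_mod_cast hl.trans hlt
  have hs0 : (1 : ℝ) ≤ s := by exact_mod_cast hs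
  have hlog2 : 0 < Real.log 2 := Real.log_pos (by norm_num)
  have hIm : (I.card : ℝ) ≤ m := by
    have h1 : I.card ≤ b - a := by rw [hI, Nat.card_Ico]; omega
    have h6 : ((I.card : ℕ) : ℝ) ≤ ((b - a : ℕ) : ℝ) := by exact_mod_cast h1
    rwa [Nat.cast_sub (by omega)] at h6
  have hB0 : 0 ≤ B := by
    apply Real.log_nonneg
    have : (1 : ℝ) ≤ (b : ℝ) + 1 - a := by linarith
    nlinarith
  set H := ∑ i ∈ I, (Real.log (mu0 t x I i) - Real.log (mul t l x I i)) with hH
  have hHb : H ≤ δ * m * Real.log 2 / 4 := by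
    have h1 := ent_bound (t := t) (l := l) (s := s) x (a := a) (b := b) (by omega) ht.symm.le hl
    have h2 : (s : ℝ) * l = t := by rw [ht]; push_cast; ring
    rw [h2] at h1
    have h3 : s * H ≤ (2 * m) * B := by
      refine h1.trans (mul_le_mul_of_nonneg_right ?_ hB0)
      linarith
    have h4 : (2 * m) * B ≤ s * (δ * m * Real.log 2 / 4) := by
      have h5 : m * (8 * B) ≤ m * (δ * Real.log 2 * s) :=
        mul_le_mul_of_nonneg_left hbig (by linarith)
      linarith
    exact le_of_mul_le_mul_left (h3.trans h4) (by linarith)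
  -- the bad positions
  set P := I.filter fun i => 2 * mul t l x I i < mu0 t x I i with hP
  have hnn : ∀ i ∈ I, 0 ≤ Real.log (mu0 t x I i) - Real.log (mul t l x I i) := by
    intro i hi
    have h1 : (1 : ℝ) ≤ mul t l x I i := by exact_mod_cast mul_pos' hi
    have h2 : (mul t l x I i : ℝ) ≤ mu0 t x I i := by exact_mod_cast mul_le_mu0
    have := Real.log_le_log (by linarith) h2
    linarith
  have hPc : (P.card : ℝ) ≤ δ * m / 4 := by
    have h1 : ∑ i ∈ P, Real.log 2 ≤ H := by
      refine le_trans (Finset.sum_le_sum fun i hi => ?_)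
        (Finset.sum_le_sum_of_subset_of_nonneg (Finset.filter_subset _ _) fun i hi _ => hnn i hi)
      obtain ⟨hi1, hi2⟩ := Finset.mem_filter.1 hi
      have h2 : (1 : ℝ) ≤ mul t l x I i := by exact_mod_cast mul_pos' hi1
      have h3 : (2 : ℝ) * mul t l x I i ≤ mu0 t x I i := by exact_mod_cast hi2.le
      have h4 := Real.log_le_log (by linarith) h3
      rw [Real.log_mul (by norm_num) (by linarith)] at h4
      linarith
    rw [Finset.sum_const, nsmul_eq_mul] at h1
    have h2 : (P.card : ℝ) * Real.log 2 ≤ (δ * m / 4) * Real.log 2 := by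
      refine h1.trans (hHb.trans (le_of_eq (by ring)))
    exact le_of_mul_le_mul_right h2 hlog2
  -- the positions with rare factors
  set Q := I.filter fun i => (mlt l x I i : ℝ) ≤ 2 / δ with hQ
  have hQc : δ * m / 2 ≤ (Q.card : ℝ) := by
    have h1 := sum_inv_mlt l x I
    have h2 : ∑ i ∈ I, (1 : ℝ) / (mlt l x I i) ≤ Q.card + m * (δ / 2) := by
      rw [← Finset.sum_filter_add_sum_filter_not I (fun i => (mlt l x I i : ℝ) ≤ 2 / δ)]
      refine add_le_add ?_ ?_
      · have h3 : ∀ i ∈ I.filter (fun i => (mlt l x I i : ℝ) ≤ 2 / δ),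
            (1 : ℝ) / (mlt l x I i) ≤ 1 := by
          intro i hi
          have h4 : (1 : ℝ) ≤ mlt l x I i := by
            exact_mod_cast (mul_pos' (t := t) (Finset.mem_filter.1 hi).1).trans mul_le_mlt
          rw [div_le_one (by linarith)]
          exact h4
        have := Finset.sum_le_sum h3
        simpa using this
      · have h3 : ∀ i ∈ I.filter (fun i => ¬ (mlt l x I i : ℝ) ≤ 2 / δ),
            (1 : ℝ) / (mlt l x I i) ≤ δ / 2 := by
          intro i hi
          have h4 := (Finset.mem_filter.1 hi).2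
          rw [not_le] at h4
          have h5 : (0 : ℝ) < 2 / δ := by positivity
          calc (1 : ℝ) / (mlt l x I i) ≤ 1 / (2 / δ) :=
                one_div_le_one_div_of_le h5 h4.le
            _ = δ / 2 := by rw [one_div_div]
        have h6 := Finset.sum_le_sum h3
        rw [Finset.sum_const, nsmul_eq_mul] at h6
        refine h6.trans (mul_le_mul_of_nonneg_right ?_ (by linarith))
        refine le_trans ?_ hIm
        exact_mod_cast Finset.card_filter_le _ _
    rw [h1] at h2
    linarith
  -- the good positions are rare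
  have hsub : Q \ P ⊆ rare t (⌊4 / δ⌋₊ + 1) x a b := by
    intro i hi
    obtain ⟨hiQ, hiP⟩ := Finset.mem_sdiff.1 hi
    obtain ⟨hiI, hi2⟩ := Finset.mem_filter.1 hiQ
    have hi3 : mu0 t x I i ≤ 2 * mul t l x I i := by
      by_contra h
      exact hiP (Finset.mem_filter.2 ⟨hiI, by omega⟩)
    have hi4 := Finset.mem_Ico.1 hiI
    refine mem_rare.2 ⟨⟨hi4.1, by omega⟩, ?_⟩
    have h1 : trc (Trav t (pre x i) (x i) x) a b ≤ mu0 t x I i + 1 := by
      have hsub1 : (Finset.Ico a b).filter (Trav t (pre x i) (x i) x) ⊆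
          (I.filter fun j => Cl t (pre x i) (pre x j)) ∪
            (Finset.Ico (b + 1 - l) b).filter (fun j => Cl t (pre x i) (pre x j)) := by
        intro j hj
        obtain ⟨hj1, hj2⟩ := Finset.mem_filter.1 hj
        have hj3 := Finset.mem_Ico.1 hj1
        rw [Finset.mem_union, Finset.mem_filter, Finset.mem_filter, hI, Finset.mem_Ico,
          Finset.mem_Ico]
        by_cases h : j < b + 1 - l
        · exact Or.inl ⟨⟨hj3.1, h⟩, hj2.1⟩
        · exact Or.inr ⟨⟨by omega, hj3.2⟩, hj2.1⟩
      have hone : ((Finset.Ico (b + 1 - l) b).filter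
          (fun j => Cl t (pre x i) (pre x j))).card ≤ 1 := by
        rw [Finset.card_le_one]
        intro j hj j' hj'
        obtain ⟨h5, h6⟩ := Finset.mem_filter.1 hj
        obtain ⟨h7, h8⟩ := Finset.mem_filter.1 hj'
        have h9 := Finset.mem_Ico.1 h5
        have h10 := Finset.mem_Ico.1 h7
        rcases Nat.lt_trichotomy j j' with h | h | h
        · exact absurd (h6.symm.trans h8) (not_Cl_near x h (by omega))
        · exact h
        · exact absurd (h8.symm.trans h6) (not_Cl_near x h (by omega))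
      have hc := (Finset.card_le_card hsub1).trans (Finset.card_union_le _ _)
      have e1 : trc (Trav t (pre x i) (x i) x) a b =
          ((Finset.Ico a b).filter (Trav t (pre x i) (x i) x)).card := by
        unfold trc; congr!
      have e2 : mu0 t x I i = (I.filter fun j => Cl t (pre x i) (pre x j)).card := by
        unfold mu0; congr!
      rw [e1, e2]
      exact hc.trans (Nat.add_le_add_left hone _)
    have h2 : (mul t l x I i : ℝ) ≤ 2 / δ :=
      le_trans (by exact_mod_cast mul_le_mlt) hi2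
    have h3 : ((2 * mul t l x I i : ℕ) : ℝ) ≤ 4 / δ := by
      push_cast
      have : (4 : ℝ) / δ = 2 * (2 / δ) := by ring
      rw [this]
      linarith
    have h4 : 2 * mul t l x I i ≤ ⌊4 / δ⌋₊ := Nat.le_floor h3
    omega
  have h1 := Finset.card_le_card hsub
  have h2 : Q.card - P.card ≤ (Q \ P).card := Finset.le_card_sdiff P Q
  have h3 : (Q.card : ℝ) - P.card ≤ ((rare t (⌊4 / δ⌋₊ + 1) x a b).card : ℝ) := by
    have h4 : Q.card ≤ (rare t (⌊4 / δ⌋₊ + 1) x a b).card + P.card := by omega
    have h5 : (Q.card : ℝ) ≤ ((rare t (⌊4 / δ⌋₊ + 1) x a b).card : ℝ) + P.card := by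
      exact_mod_cast h4
    linarith
  linarith

end DeckG
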