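import Pool.Agent.DeckG.Core

/-!
# The entropy of the walk on the classes
-/

namespace DeckG

open DeckA

/-- An inequality of Gibbs type for finite sets with an equivalence relation. -/
lemma gibbs {ι ω : Type*} [DecidableEq ω] (I : Finset ι) (E : ι → ι → Prop) [DecidableRel E]
    (hE : Equivalence E) (w : ι → ω) (F : ι → ω → ℝ) (G : ι → ℝ)
    (hFE : ∀ i j, E i j → ∀ v, F i v = F j v) (hGE : ∀ i j, E i j → G i = G j)
    (hF : ∀ i ∈ I, 0 < F i (w i)) (hG0 : ∀ i ∈ I, 0 < G i)
    (hG : ∀ i ∈ I, ∑ v ∈ (I.filter (E i)).image w, F i v ≤ G i) :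
    ∑ i ∈ I, (Real.log (F i (w i)) + Real.log (I.filter (E i)).card -
      Real.log (I.filter fun j => E i j ∧ w j = w i).card) ≤ ∑ i ∈ I, Real.log (G i) := by
  have h0 : ∀ i ∈ I, (0 : ℝ) < (I.filter (E i)).card := fun i hi => by
    exact_mod_cast Finset.card_pos.2 ⟨i, Finset.mem_filter.2 ⟨hi, hE.refl i⟩⟩
  have h1 : ∀ i ∈ I, (0 : ℝ) < (I.filter fun j => E i j ∧ w j = w i).card := fun i hi => by
    have h : i ∈ I.filter fun j => E i j ∧ w j = w i :=
      Finset.mem_filter.2 ⟨hi, hE.refl i, rfl⟩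
    exact_mod_cast Finset.card_pos.2 ⟨i, h⟩
  have hz : ∑ i ∈ I, F i (w i) * (I.filter (E i)).card /
      ((I.filter fun j => E i j ∧ w j = w i).card * G i) ≤ ∑ _i ∈ I, (1 : ℝ) := by
    have e1 : ∀ i ∈ I, F i (w i) * (I.filter (E i)).card /
        ((I.filter fun j => E i j ∧ w j = w i).card * G i) =
        ∑ j ∈ I, if E i j then F i (w i) / ((I.filter fun j => E i j ∧ w j = w i).card * G i)
          else 0 := by
      intro i _
      rw [← Finset.sum_filter, Finset.sum_const, nsmul_eq_mul]
      ring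
    rw [Finset.sum_congr rfl e1, Finset.sum_comm]
    refine Finset.sum_le_sum fun j hj => ?_
    have e2 : ∑ i ∈ I, (if E i j then F i (w i) /
          ((I.filter fun j => E i j ∧ w j = w i).card * G i) else 0) =
        (∑ v ∈ (I.filter (E j)).image w, F j v) / G j := by
      have e3 : ∑ v ∈ (I.filter (E j)).image w, F j v =
          ∑ i ∈ I.filter (E j), F j (w i) / ((I.filter (E j)).filter fun a => w a = w i).card := by
        rw [Finset.sum_comp (fun v => F j v / ((I.filter (E j)).filter fun a => w a = v).card) w]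
        refine Finset.sum_congr rfl fun v hv => ?_
        obtain ⟨a, ha, hav⟩ := Finset.mem_image.1 hv
        have : (0 : ℝ) < ((I.filter (E j)).filter fun a => w a = v).card := by
          exact_mod_cast Finset.card_pos.2 ⟨a, Finset.mem_filter.2 ⟨ha, hav⟩⟩
        rw [nsmul_eq_mul]
        field_simp
      rw [e3, ← Finset.sum_filter, Finset.sum_div]
      have e4 : I.filter (fun i => E i j) = I.filter (E j) :=
        Finset.filter_congr fun i _ => ⟨fun h => hE.symm h, fun h => hE.symm h⟩
      rw [e4]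
      refine Finset.sum_congr rfl fun i hi => ?_
      have hji := (Finset.mem_filter.1 hi).2
      have e5 : (I.filter fun a => E i a ∧ w a = w i) =
          (I.filter (E j)).filter fun a => w a = w i := by
        rw [Finset.filter_filter]
        refine Finset.filter_congr fun a _ => ?_
        exact ⟨fun h => ⟨hE.trans hji h.1, h.2⟩, fun h => ⟨hE.trans (hE.symm hji) h.1, h.2⟩⟩
      rw [e5, ← hFE j i hji, ← hGE j i hji, div_div]
    rw [e2]
    exact (div_le_one (hG0 j hj)).2 (hG j hj)
  have hlog : ∀ i ∈ I, Real.log (F i (w i)) + Real.log (I.filter (E i)).card -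
      Real.log (I.filter fun j => E i j ∧ w j = w i).card - Real.log (G i) ≤
      F i (w i) * (I.filter (E i)).card /
      ((I.filter fun j => E i j ∧ w j = w i).card * G i) - 1 := by
    intro i hi
    have p1 := hF i hi
    have p2 := h0 i hi
    have p3 := h1 i hi
    have p4 := hG0 i hi
    have h2 := Real.log_le_sub_one_of_pos (x := F i (w i) * (I.filter (E i)).card /
      ((I.filter fun j => E i j ∧ w j = w i).card * G i)) (by positivity)
    rw [Real.log_div (by positivity) (by positivity), Real.log_mul p1.ne' p2.ne',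
      Real.log_mul p3.ne' p4.ne'] at h2
    linarith
  have h3 := Finset.sum_le_sum hlog
  have h4 := Finset.sum_sub_distrib (s := I) (fun i => Real.log (F i (w i)) +
    Real.log (I.filter (E i)).card - Real.log (I.filter fun j => E i j ∧ w j = w i).card)
    (fun i => Real.log (G i))
  have h5 := Finset.sum_sub_distrib (s := I) (fun i => F i (w i) * (I.filter (E i)).card /
      ((I.filter fun j => E i j ∧ w j = w i).card * G i)) (fun _ => (1 : ℝ))
  rw [h4, h5] at h3
  linarith

/-- The words of length at most `T`. -/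
noncomputable def wle (T : ℕ) : Finset (List Bool) := (List.finite_length_le Bool T).toFinset

lemma mem_wle {T : ℕ} {w : List Bool} : w ∈ wle T ↔ w.length ≤ T := by simp [wle]

open Classical in
/-- The number of words of length at most `r l` that lead from the word `p` to a class of a word
read at a time of `[a, b]`. -/
noncomputable def Gn (t l : ℕ) (x : ℕ → Bool) (a b r : ℕ) (p : List Bool) : ℕ :=
  ((wle (r * l)).filter fun w => ∃ j ∈ Finset.Icc a b, Cl t (w ++ p) (pre x j)).card

section

variable {t l : ℕ} {x : ℕ → Bool} {a b : ℕ}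

lemma Gn_congr {p p' : List Bool} (r : ℕ) (h : Cl t p p') :
    Gn t l x a b r p = Gn t l x a b r p' := by
  classical
  unfold Gn
  congr 1
  refine Finset.filter_congr fun w _ => ?_
  constructor
  · rintro ⟨j, hj, h'⟩
    exact ⟨j, hj, (h.append w).symm.trans h'⟩
  · rintro ⟨j, hj, h'⟩
    exact ⟨j, hj, (h.append w).trans h'⟩

lemma Gn_pos {i r : ℕ} (ha : a ≤ i) (hb : i ≤ b) : 1 ≤ Gn t l x a b r (pre x i) := by
  classical
  unfold Gn
  exact Finset.card_pos.2 ⟨[], Finset.mem_filter.2 ⟨mem_wle.2 (by simp),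
    i, Finset.mem_Icc.2 ⟨ha, hb⟩, Cl.refl _ _⟩⟩

lemma Gn_le {r : ℕ} (hr : r * l ≤ t) (p : List Bool) :
    Gn t l x a b r p ≤ (t + 1) * (b + 1 - a) := by
  classical
  unfold Gn
  have hcard : ((Finset.range (t + 1)) ×ˢ (Finset.Icc a b)).card = (t + 1) * (b + 1 - a) := by
    rw [Finset.card_product, Finset.card_range, Nat.card_Icc]
  rw [← hcard]
  have hex : ∀ w : List Bool, ∃ j, (∃ j ∈ Finset.Icc a b, Cl t (w ++ p) (pre x j)) →
      (j ∈ Finset.Icc a b ∧ Cl t (w ++ p) (pre x j)) := by
    intro w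
    by_cases h : ∃ j ∈ Finset.Icc a b, Cl t (w ++ p) (pre x j)
    · obtain ⟨j, hj⟩ := h
      exact ⟨j, fun _ => hj⟩
    · exact ⟨0, fun h' => absurd h' h⟩
  choose f hf using hex
  refine Finset.card_le_card_of_injOn (fun w => (w.length, f w)) ?_ ?_
  · intro w hw
    have hw' := Finset.mem_filter.1 (Finset.mem_coe.1 hw)
    have h1 := mem_wle.1 hw'.1
    refine Finset.mem_coe.2 (Finset.mem_product.2 ⟨Finset.mem_range.2 ?_, (hf w hw'.2).1⟩)
    show w.length < t + 1
    omega
  · intro w hw w' hw' heq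
    have h1 := Finset.mem_filter.1 (Finset.mem_coe.1 hw)
    have h2 := Finset.mem_filter.1 (Finset.mem_coe.1 hw')
    have h3 := mem_wle.1 h1.1
    simp only [Prod.mk.injEq] at heq
    have h4 := (hf w h1.2).2
    have h5 := (hf w' h2.2).2
    rw [heq.2] at h4
    exact eq_of_Cl (Cl.cancel (Cl.refl t p) (h4.trans h5.symm)) heq.1 (by omega)

lemma Gn_succ (r : ℕ) (p : List Bool) (W : Finset (List Bool)) (hW : ∀ w ∈ W, w.length = l) :
    ∑ w ∈ W, Gn t l x a b r (w ++ p) ≤ Gn t l x a b (r + 1) p := by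
  classical
  unfold Gn
  rw [← Finset.card_sigma]
  refine Finset.card_le_card_of_injOn (fun q => q.2 ++ q.1) ?_ ?_
  · intro q hq
    obtain ⟨h1, h2⟩ := Finset.mem_sigma.1 (Finset.mem_coe.1 hq)
    obtain ⟨h3, j, hj, h4⟩ := Finset.mem_filter.1 h2
    refine Finset.mem_coe.2 (Finset.mem_filter.2 ⟨mem_wle.2 ?_, j, hj, ?_⟩)
    · have h5 := mem_wle.1 h3
      show (q.2 ++ q.1).length ≤ (r + 1) * l
      rw [List.length_append, hW _ h1, Nat.succ_mul]
      omega
    · show Cl t ((q.2 ++ q.1) ++ p) (pre x j)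
      rw [List.append_assoc]
      exact h4
  · rintro ⟨w, w'⟩ hq ⟨v, v'⟩ hq' heq
    obtain ⟨h1, -⟩ := Finset.mem_sigma.1 (Finset.mem_coe.1 hq)
    obtain ⟨h2, -⟩ := Finset.mem_sigma.1 (Finset.mem_coe.1 hq')
    have h3 : w' ++ w = v' ++ v := heq
    obtain ⟨h4, h5⟩ := List.append_inj' h3 ((hW w h1).trans (hW v h2).symm)
    subst h4 h5
    rfl

end

/-- The number of `l`-factors of the interval that start at times whose words are equivalent to the
word of the time `i`. -/
noncomputable def mu0 (t : ℕ) (x : ℕ → Bool) (I : Finset ℕ) (i : ℕ) : ℕ := by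
  classical exact (I.filter fun j => Cl t (pre x i) (pre x j)).card

/-- The same with the `l`-factor of `i`. -/
noncomputable def mul (t l : ℕ) (x : ℕ → Bool) (I : Finset ℕ) (i : ℕ) : ℕ := by
  classical exact (I.filter fun j => Cl t (pre x i) (pre x j) ∧ win x j l = win x i l).card

/-- The number of occurrences of the `l`-factor of `i`. -/
noncomputable def mlt (l : ℕ) (x : ℕ → Bool) (I : Finset ℕ) (i : ℕ) : ℕ := by
  classical exact (I.filter fun j => win x j l = win x i l).card

lemma mul_pos' {t l : ℕ} {x : ℕ → Bool} {I : Finset ℕ} {i : ℕ} (hi : i ∈ I) :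
    1 ≤ mul t l x I i := by
  classical
  unfold mul
  exact Finset.card_pos.2 ⟨i, Finset.mem_filter.2 ⟨hi, Cl.refl _ _, rfl⟩⟩

lemma mul_le_mu0 {t l : ℕ} {x : ℕ → Bool} {I : Finset ℕ} {i : ℕ} :
    mul t l x I i ≤ mu0 t x I i := by
  classical
  unfold mul mu0
  exact Finset.card_le_card fun j hj => by
    have := Finset.mem_filter.1 hj
    exact Finset.mem_filter.2 ⟨this.1, this.2.1⟩

lemma mul_le_mlt {t l : ℕ} {x : ℕ → Bool} {I : Finset ℕ} {i : ℕ} :
    mul t l x I i ≤ mlt l x I i := by
  classical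
  unfold mul mlt
  exact Finset.card_le_card fun j hj => by
    have := Finset.mem_filter.1 hj
    exact Finset.mem_filter.2 ⟨this.1, this.2.2⟩

/-- One step of the entropy bound. -/
lemma ent_step {t l r : ℕ} (x : ℕ → Bool) {a b : ℕ} :
    ∑ i ∈ Finset.Ico a (b + 1 - l), (Real.log (Gn t l x a b r (pre x (i + l))) +
        Real.log (mu0 t x (Finset.Ico a (b + 1 - l)) i) -
        Real.log (mul t l x (Finset.Ico a (b + 1 - l)) i)) ≤
      ∑ i ∈ Finset.Ico a (b + 1 - l), Real.log (Gn t l x a b (r + 1) (pre x i)) := by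
  classical
  have h := gibbs (Finset.Ico a (b + 1 - l)) (fun i j => Cl t (pre x i) (pre x j))
    ⟨fun i => Cl.refl _ _, fun h => h.symm, fun h h' => h.trans h'⟩ (fun i => win x i l)
    (fun i v => (Gn t l x a b r (v ++ pre x i) : ℝ))
    (fun i => (Gn t l x a b (r + 1) (pre x i) : ℝ))
    (fun i j hij v => by rw [Gn_congr r (hij.append v)])
    (fun i j hij => by rw [Gn_congr (r + 1) hij]) ?_ ?_ ?_
  · refine le_trans (le_of_eq ?_) h
    refine Finset.sum_congr rfl fun i hi => ?_
    rw [← pre_add]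
    unfold mu0 mul
    congr!
  · intro i hi
    have := Finset.mem_Ico.1 hi
    rw [← pre_add]
    exact_mod_cast Gn_pos (by omega) (by omega)
  · intro i hi
    have := Finset.mem_Ico.1 hi
    exact_mod_cast Gn_pos (by omega) (by omega)
  · intro i hi
    have h1 := Gn_succ (t := t) (x := x) (a := a) (b := b) (l := l) r (pre x i)
      ((Finset.filter (fun j => Cl t (pre x i) (pre x j))
        (Finset.Ico a (b + 1 - l))).image fun i => win x i l) (by
        intro w hw
        obtain ⟨j, -, rfl⟩ := Finset.mem_image.1 hw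
        simp)
    exact_mod_cast h1

/-- The entropy bound. -/
lemma ent_bound {t l s : ℕ} (x : ℕ → Bool) {a b : ℕ} (hab : a + l ≤ b) (hs : s * l ≤ t)
    (hl : 1 ≤ l) :
    s * ∑ i ∈ Finset.Ico a (b + 1 - l), (Real.log (mu0 t x (Finset.Ico a (b + 1 - l)) i) -
        Real.log (mul t l x (Finset.Ico a (b + 1 - l)) i)) ≤
      ((b : ℝ) - a + s * l) * Real.log ((t + 1) * ((b : ℝ) + 1 - a)) := by
  classical
  set I := Finset.Ico a (b + 1 - l) with hI
  set B : ℝ := Real.log ((t + 1) * ((b : ℝ) + 1 - a)) with hB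
  have hGB : ∀ r ≤ s, ∀ i, a ≤ i → i ≤ b → 0 ≤ Real.log (Gn t l x a b r (pre x i)) ∧
      Real.log (Gn t l x a b r (pre x i)) ≤ B := by
    intro r hr i h1 h2
    have h3 : 1 ≤ Gn t l x a b r (pre x i) := Gn_pos h1 h2
    have h4 : Gn t l x a b r (pre x i) ≤ (t + 1) * (b + 1 - a) :=
      Gn_le ((Nat.mul_le_mul_right l hr).trans hs) _
    refine ⟨Real.log_nonneg (by exact_mod_cast h3), Real.log_le_log (by exact_mod_cast h3) ?_⟩
    have h5 : ((Gn t l x a b r (pre x i) : ℕ) : ℝ) ≤ (((t + 1) * (b + 1 - a) : ℕ) : ℝ) := by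
      exact_mod_cast h4
    refine h5.trans (le_of_eq ?_)
    rw [Nat.cast_mul, Nat.cast_sub (by omega)]
    push_cast
    ring
  -- the shifted sum
  have hshift : ∀ r ≤ s, ∑ i ∈ I, Real.log (Gn t l x a b r (pre x i)) ≤
      ∑ i ∈ I, Real.log (Gn t l x a b r (pre x (i + l))) + l * B := by
    intro r hr
    have e1 : ∑ i ∈ I, Real.log (Gn t l x a b r (pre x (i + l))) =
        ∑ i ∈ Finset.Ico (a + l) (b + 1), Real.log (Gn t l x a b r (pre x i)) := by
      rw [hI, Finset.sum_Ico_add' (fun i => Real.log (Gn t l x a b r (pre x i)))]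
      congr 2
      omega
    have e2 : ∑ i ∈ Finset.Ico a (b + 1), Real.log (Gn t l x a b r (pre x i)) =
        ∑ i ∈ Finset.Ico a (a + l), Real.log (Gn t l x a b r (pre x i)) +
        ∑ i ∈ Finset.Ico (a + l) (b + 1), Real.log (Gn t l x a b r (pre x i)) :=
      (Finset.sum_Ico_consecutive _ (by omega) (by omega)).symm
    have e3 : ∑ i ∈ I, Real.log (Gn t l x a b r (pre x i)) ≤
        ∑ i ∈ Finset.Ico a (b + 1), Real.log (Gn t l x a b r (pre x i)) := by
      refine Finset.sum_le_sum_of_subset_of_nonneg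
        (Finset.Ico_subset_Ico le_rfl (by omega)) fun i hi _ => ?_
      have := Finset.mem_Ico.1 hi
      exact (hGB r hr i this.1 (by omega)).1
    have e4 : ∑ i ∈ Finset.Ico a (a + l), Real.log (Gn t l x a b r (pre x i)) ≤ l * B := by
      have := Finset.sum_le_card_nsmul (Finset.Ico a (a + l))
        (fun i => Real.log (Gn t l x a b r (pre x i))) B fun i hi => by
          have := Finset.mem_Ico.1 hi
          exact (hGB r hr i this.1 (by omega)).2
      rw [Nat.card_Ico, nsmul_eq_mul] at this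
      simpa using this
    rw [e1]
    linarith
  set H := ∑ i ∈ I, (Real.log (mu0 t x I i) - Real.log (mul t l x I i)) with hH
  have hstep : ∀ r < s, H + ∑ i ∈ I, Real.log (Gn t l x a b r (pre x i)) ≤
      ∑ i ∈ I, Real.log (Gn t l x a b (r + 1) (pre x i)) + l * B := by
    intro r hr
    have h1 := ent_step (t := t) (l := l) (r := r) x (a := a) (b := b)
    have h2 := hshift r hr.le
    have h3 : ∑ i ∈ Finset.Ico a (b + 1 - l), (Real.log (Gn t l x a b r (pre x (i + l))) +
        Real.log (mu0 t x (Finset.Ico a (b + 1 - l)) i) -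
        Real.log (mul t l x (Finset.Ico a (b + 1 - l)) i)) =
        ∑ i ∈ I, Real.log (Gn t l x a b r (pre x (i + l))) + H := by
      rw [hH, ← Finset.sum_add_distrib]
      refine Finset.sum_congr rfl fun i _ => by ring
    rw [h3] at h1
    linarith
  have htel : ∀ r ≤ s, r * H + ∑ i ∈ I, Real.log (Gn t l x a b 0 (pre x i)) ≤
      ∑ i ∈ I, Real.log (Gn t l x a b r (pre x i)) + r * (l * B) := by
    intro r
    induction r with
    | zero => intro _; simp
    | succ r ih =>
      intro hr
      have h1 := ih (by omega)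
      have h2 := hstep r (by omega)
      push_cast
      linarith
  have h1 := htel s le_rfl
  have h2 : 0 ≤ ∑ i ∈ I, Real.log (Gn t l x a b 0 (pre x i)) :=
    Finset.sum_nonneg fun i hi => by
      have := Finset.mem_Ico.1 hi
      exact (hGB 0 (Nat.zero_le s) i (by omega) (by omega)).1
  have h3 : ∑ i ∈ I, Real.log (Gn t l x a b s (pre x i)) ≤ ((b : ℝ) - a) * B := by
    have h4 := Finset.sum_le_card_nsmul I
      (fun i => Real.log (Gn t l x a b s (pre x i))) B fun i hi => by
        have := Finset.mem_Ico.1 hi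
        exact (hGB s le_rfl i (by omega) (by omega)).2
    have hB0 : 0 ≤ B := by
      have := hGB 0 (Nat.zero_le s) a le_rfl (by omega)
      linarith
    have h5 : ((I.card : ℕ) : ℝ) ≤ (b : ℝ) - a := by
      have : I.card ≤ b - a := by rw [hI, Nat.card_Ico]; omega
      have h6 : ((I.card : ℕ) : ℝ) ≤ ((b - a : ℕ) : ℝ) := by exact_mod_cast this
      rwa [Nat.cast_sub (by omega)] at h6
    rw [nsmul_eq_mul] at h4
    exact h4.trans (mul_le_mul_of_nonneg_right h5 hB0)
  have e : ((b : ℝ) - a + s * l) * B = ((b : ℝ) - a) * B + s * (l * B) := by ring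
  rw [e]
  linarith

end DeckG
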