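import Pool.Agent.DeckG.Main

/-!
# The choice of the parameters
-/

namespace DeckG

open DeckA

lemma log_ge {n : ℕ} (hn : 2 ≤ n) : Real.log 2 ≤ Real.log n :=
  Real.log_le_log (by norm_num) (by exact_mod_cast hn)

lemma natlog_le {m : ℕ} (hm : 1 ≤ m) : (Nat.log 2 m : ℝ) * Real.log 2 ≤ Real.log m := by
  have h1 : 2 ^ Nat.log 2 m ≤ m := Nat.pow_log_le_self 2 (by omega)
  have h2 : ((2 ^ Nat.log 2 m : ℕ) : ℝ) ≤ m := by exact_mod_cast h1
  push_cast at h2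
  have h3 := Real.log_le_log (by positivity) h2
  rwa [Real.log_pow] at h3

/-- The bounds for the parameters common to both cases. -/
lemma params {n : ℕ} {δ : ℝ} (hn : 2 ≤ n) (hδ : 0 < δ) (hδ1 : δ ≤ 1) :
    ∃ s R : ℕ, 2 ≤ s ∧ 16 * Real.log ((n : ℝ) + 1) ≤ δ * Real.log 2 * s ∧
      (s : ℝ) ≤ 48 * (Real.log n / δ) ∧ (1 - δ / 4) ^ R * (n : ℝ) ≤ 1 ∧
      (2 * (R : ℝ) + 1) ≤ 13 * (Real.log n / δ) ∧
      ((⌊4 / δ⌋₊ : ℝ) + 1) ≤ 5 / δ ∧ (Nat.log 2 (2 * n + 2) : ℝ) ≤ 5 * Real.log n := by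
  have hl2 := Real.log_two_gt_d9
  have hl2' := Real.log_two_lt_d9
  have hL := log_ge hn
  set L := Real.log n with hLdef
  have hn2 : (2 : ℝ) ≤ n := by exact_mod_cast hn
  have hw : L ≤ L / δ := le_div_self (by linarith) hδ hδ1
  have hw1 : (0.69 : ℝ) ≤ L / δ := by linarith
  refine ⟨⌈32 / Real.log 2 * (L / δ)⌉₊, ⌈4 * (L / δ)⌉₊, ?_, ?_, ?_, ?_, ?_, ?_, ?_⟩
  · have h1 : (2 : ℝ) ≤ 32 / Real.log 2 * (L / δ) := by
      have h2 : (32 : ℝ) ≤ 32 / Real.log 2 := le_div_self (by norm_num) (by linarith) (by linarith)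
      have h3 := mul_le_mul h2 hw1 (by norm_num) (by linarith)
      linarith
    have h3 := h1.trans (Nat.le_ceil _)
    exact_mod_cast h3
  · have h1 : Real.log ((n : ℝ) + 1) ≤ 2 * L := by
      have h2 : (n : ℝ) + 1 ≤ (n : ℝ) ^ 2 := by
        have := mul_le_mul_of_nonneg_right hn2 (show (0 : ℝ) ≤ n by linarith)
        rw [pow_two]; linarith
      have h3 := Real.log_le_log (by linarith) h2
      rw [Real.log_pow] at h3
      simpa using h3
    have h4 := Nat.le_ceil (32 / Real.log 2 * (L / δ))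
    have h5 : δ * Real.log 2 * (32 / Real.log 2 * (L / δ)) = 32 * L := by
      have : Real.log 2 ≠ 0 := by linarith
      field_simp
    have h6 : δ * Real.log 2 * (32 / Real.log 2 * (L / δ)) ≤
        δ * Real.log 2 * (⌈32 / Real.log 2 * (L / δ)⌉₊ : ℝ) :=
      mul_le_mul_of_nonneg_left h4 (by positivity)
    linarith
  · have h1 := (Nat.ceil_lt_add_one (a := 32 / Real.log 2 * (L / δ)) (by positivity)).le
    have h2 : 32 / Real.log 2 ≤ 46.2 := by
      rw [div_le_iff₀ (by linarith)]; linarith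
    have h3 : 32 / Real.log 2 * (L / δ) ≤ 46.2 * (L / δ) :=
      mul_le_mul_of_nonneg_right h2 (by linarith)
    linarith
  · have h1 : 1 - δ / 4 ≤ Real.exp (-(δ / 4)) := by
      have := Real.add_one_le_exp (-(δ / 4)); linarith
    have h2 : (1 - δ / 4) ^ ⌈4 * (L / δ)⌉₊ ≤ Real.exp (-(δ / 4)) ^ ⌈4 * (L / δ)⌉₊ :=
      pow_le_pow_left₀ (by linarith) h1 _
    rw [← Real.exp_nat_mul] at h2
    have h3 : (⌈4 * (L / δ)⌉₊ : ℝ) * (-(δ / 4)) ≤ -L := by
      have h4 := Nat.le_ceil (4 * (L / δ))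
      have h5 : 4 * (L / δ) * (δ / 4) ≤ (⌈4 * (L / δ)⌉₊ : ℝ) * (δ / 4) :=
        mul_le_mul_of_nonneg_right h4 (by linarith)
      have h6 : 4 * (L / δ) * (δ / 4) = L := by field_simp
      linarith
    have h4 : Real.exp ((⌈4 * (L / δ)⌉₊ : ℝ) * (-(δ / 4))) ≤ (n : ℝ)⁻¹ := by
      calc Real.exp ((⌈4 * (L / δ)⌉₊ : ℝ) * (-(δ / 4))) ≤ Real.exp (-L) := Real.exp_le_exp.2 h3
        _ = (n : ℝ)⁻¹ := by rw [Real.exp_neg, hLdef, Real.exp_log (by linarith)]
    calc (1 - δ / 4) ^ ⌈4 * (L / δ)⌉₊ * (n : ℝ) ≤ (n : ℝ)⁻¹ * n :=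
          mul_le_mul_of_nonneg_right (h2.trans h4) (by linarith)
      _ = 1 := inv_mul_cancel₀ (by linarith)
  · have h1 := (Nat.ceil_lt_add_one (a := 4 * (L / δ)) (by positivity)).le
    linarith
  · have h1 := Nat.floor_le (show (0 : ℝ) ≤ 4 / δ by positivity)
    have h2 : (1 : ℝ) ≤ 1 / δ := by rw [le_div_iff₀ hδ]; linarith
    have h3 : (5 : ℝ) / δ = 4 / δ + 1 / δ := by ring
    linarith
  · have h1 := natlog_le (m := 2 * n + 2) (by omega)
    have h2 : Real.log ((2 * n + 2 : ℕ) : ℝ) ≤ 3 * L := by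
      have h3 : ((2 * n + 2 : ℕ) : ℝ) ≤ (n : ℝ) ^ 3 := by
        push_cast
        have e1 := mul_le_mul_of_nonneg_right hn2 (show (0 : ℝ) ≤ n by linarith)
        have e2 := mul_le_mul_of_nonneg_right hn2 (show (0 : ℝ) ≤ (n : ℝ) * n by positivity)
        have e3 : (n : ℝ) ^ 3 = n * (n * n) := by ring
        rw [e3]; linarith
      have h4 := Real.log_le_log (by positivity) h3
      rw [Real.log_pow] at h4
      simpa using h4
    have h5 : (Nat.log 2 (2 * n + 2) : ℝ) * 0.69 ≤ 3 * L := by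
      refine le_trans ?_ (h1.trans h2)
      exact mul_le_mul_of_nonneg_left (by linarith) (Nat.cast_nonneg _)
    linarith

lemma natlog_le' {m : ℕ} (hm : 1 ≤ m) {A : ℝ} (h : Real.log m ≤ A) :
    (Nat.log 2 m : ℝ) ≤ 1.45 * A := by
  have h1 := natlog_le hm
  have hl2 := Real.log_two_gt_d9
  have h2 : (Nat.log 2 m : ℝ) * 0.693 ≤ A :=
    le_trans (mul_le_mul_of_nonneg_left (by linarith) (Nat.cast_nonneg _)) (h1.trans h)
  have h3 : 0 ≤ (Nat.log 2 m : ℝ) := Nat.cast_nonneg _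
  linarith

/-- **Part 1.** -/
theorem part_one {n l S k : ℕ} {δ : ℝ} (hn : 2 ≤ n) (hl : 1 ≤ l) (hδ : 0 < δ) (hδ1 : δ ≤ 1)
    (x y : ℕ → Bool)
    (hk : ∀ z : List Bool, z.length ≤ k → cnt z (pre x n) = cnt z (pre y n))
    (hfac : ∀ a b, a + S ≤ b → b ≤ n → δ * ((b : ℝ) - a) ≤ (nfac l (win x a (b - a)) : ℝ))
    (hkk : S + 10 ^ 5 * l * Real.log n ^ 4 / δ ^ 3 ≤ k) : ∀ i < n, x i = y i := by
  obtain ⟨s, R, h1, h2, h3, h4, h5, h6, h7⟩ := params hn hδ hδ1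
  have hl2 := Real.log_two_gt_d9
  have hL := log_ge hn
  have hM := natlog_le' (m := n) (by omega) (A := Real.log n) le_rfl
  set L := Real.log n with hLdef
  have hl' : (1 : ℝ) ≤ l := by exact_mod_cast hl
  refine recon_core (k := k) (S := S) (l := l) (s := s) (M := Nat.log 2 n + 1)
    (k' := S + s * l) (R := R) (S' := S + s * l) x y hk hl (by omega) hδ hδ1 hfac h2
    (by omega) (by omega) (by omega) (Nat.lt_pow_succ_log_self (by norm_num) n) ?_ ?_ ?_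
  · intro u w hu1 hu2 hv
    exact fin_trivial (by omega) hu1 hu2.le hv
  · refine lt_of_le_of_lt h4 ?_
    have h8 : 2 ≤ s * l := h1.trans (Nat.le_mul_of_pos_right s hl)
    have : (2 : ℝ) ≤ ((S + s * l : ℕ) : ℝ) := by exact_mod_cast (by omega : 2 ≤ S + s * l)
    linarith
  · have e2 : 2 * (Nat.log 2 n + 1) - 1 = 2 * Nat.log 2 n + 1 := by omega
    rw [e2]
    set w := L / δ with hw
    have hL0 : (0.69 : ℝ) ≤ L := by linarith
    have hwL : L ≤ w := le_div_self (by linarith) hδ hδ1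
    have hw0 : (0.69 : ℝ) ≤ w := by linarith
    have hδ' : (1 : ℝ) ≤ 1 / δ := by rw [le_div_iff₀ hδ]; linarith
    have hLL : (0.69 : ℝ) ^ 2 ≤ L ^ 2 := pow_le_pow_left₀ (by norm_num) hL0 2
    have hLLw : (0.69 : ℝ) ^ 2 * 0.69 ≤ L ^ 2 * w :=
      mul_le_mul hLL hw0 (by norm_num) (by positivity)
    have hlLw : 1 * ((0.69 : ℝ) ^ 2 * 0.69) ≤ l * (L ^ 2 * w) :=
      mul_le_mul hl' hLLw (by norm_num) (by positivity)
    have hlLw' : (0.328 : ℝ) ≤ l * L ^ 2 * w := by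
      rw [mul_assoc]; norm_num at hlLw ⊢; linarith
    -- `d + 1`
    have hd : ((2 * Nat.log 2 n + 1 : ℕ) : ℝ) * ((s * l * Nat.log 2 (2 * n + 2) : ℕ) : ℝ) + 1 ≤
        1205 * (l * L ^ 2 * w) := by
      have a1 : ((2 * Nat.log 2 n + 1 : ℕ) : ℝ) ≤ 5 * L := by push_cast; linarith
      have a2 : ((s * l * Nat.log 2 (2 * n + 2) : ℕ) : ℝ) ≤ 48 * w * l * (5 * L) := by
        push_cast
        have a3 : (s : ℝ) * l ≤ 48 * w * l := mul_le_mul_of_nonneg_right h3 (by linarith)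
        exact mul_le_mul a3 h7 (Nat.cast_nonneg _) (by positivity)
      have a4 : ((2 * Nat.log 2 n + 1 : ℕ) : ℝ) * ((s * l * Nat.log 2 (2 * n + 2) : ℕ) : ℝ) ≤
          5 * L * (48 * w * l * (5 * L)) :=
        mul_le_mul a1 a2 (Nat.cast_nonneg _) (by positivity)
      have a5 : (1 : ℝ) ≤ 5 * (l * L ^ 2 * w) := by linarith
      have e : 5 * L * (48 * w * l * (5 * L)) = 1200 * (l * L ^ 2 * w) := by ring
      linarith
    -- the main term
    have hmain : (2 * (R : ℝ) + 1) * (((⌊4 / δ⌋₊ : ℝ) + 1) *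
        (((2 * Nat.log 2 n + 1 : ℕ) : ℝ) * ((s * l * Nat.log 2 (2 * n + 2) : ℕ) : ℝ) + 1)) ≤
        78325 * (l * L ^ 4 / δ ^ 3) := by
      have a1 : ((⌊4 / δ⌋₊ : ℝ) + 1) *
          (((2 * Nat.log 2 n + 1 : ℕ) : ℝ) * ((s * l * Nat.log 2 (2 * n + 2) : ℕ) : ℝ) + 1) ≤
          5 / δ * (1205 * (l * L ^ 2 * w)) :=
        mul_le_mul h6 hd (by positivity) (by positivity)
      have a2 := mul_le_mul h5 a1 (by positivity) (by positivity)
      refine a2.trans (le_of_eq ?_)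
      rw [hw]
      field_simp
      ring
    have hX : 0 ≤ l * L ^ 4 / δ ^ 3 := by positivity
    have hq : ∀ c : ℝ, 0 ≤ c → c * (l * L ^ 2 * w) ≤ 1.45 * c * (l * L ^ 4 / δ ^ 3) := by
      intro c hc
      have e1 : l * L ^ 4 / δ ^ 3 = (l * L ^ 2 * w) * (L * (1 / δ) * (1 / δ)) := by
        rw [hw]; field_simp
      have e2 : 1 ≤ 1.45 * (L * (1 / δ) * (1 / δ)) := by
        have b1 : 1 * 1 ≤ (1 / δ) * (1 / δ) := mul_le_mul hδ' hδ' (by norm_num) (by linarith)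
        have b2 : 0.69 * 1 ≤ L * ((1 / δ) * (1 / δ)) :=
          mul_le_mul hL0 (by linarith) (by norm_num) (by linarith)
        rw [mul_assoc L]
        linarith
      rw [e1]
      have b3 : 0 ≤ c * (l * L ^ 2 * w) := by positivity
      have b4 := mul_le_mul_of_nonneg_left e2 b3
      rw [mul_one] at b4
      refine b4.trans (le_of_eq ?_)
      ring
    have hd2 := hq 1205 (by norm_num)
    have hone : (1 : ℝ) ≤ 7.5 * (l * L ^ 4 / δ ^ 3) := by
      have b4 := hq 5 (by norm_num)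
      linarith
    have hsl : (s : ℝ) * l ≤ 150 * (l * L ^ 4 / δ ^ 3) := by
      have a3 : (s : ℝ) * l ≤ 48 * w * l := mul_le_mul_of_nonneg_right h3 (by linarith)
      have b1 : (1 : ℝ) ≤ 2.11 * L ^ 2 := by norm_num at hLL ⊢; linarith
      have b2 : 48 * w * l ≤ 101.5 * (l * L ^ 2 * w) := by
        have b3 := mul_le_mul_of_nonneg_left b1 (show 0 ≤ 48 * w * l by positivity)
        have b4 : 0 ≤ l * L ^ 2 * w := by positivity
        have e : 48 * w * l * (2.11 * L ^ 2) = 101.28 * (l * L ^ 2 * w) := by ring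
        linarith
      have b4 := hq 101.5 (by norm_num)
      linarith
    have hfinal : (((2 * R + 1) * ((⌊4 / δ⌋₊ + 1) *
        ((2 * Nat.log 2 n + 1) * (s * l * Nat.log 2 (2 * n + 2)) + 1)) +
        ((2 * Nat.log 2 n + 1) * (s * l * Nat.log 2 (2 * n + 2)) + 1) + 1 + (S + s * l) : ℕ) : ℝ)
        ≤ (k : ℝ) := by
      refine le_trans ?_ hkk
      push_cast at hmain hd hsl ⊢
      have e5 : (10 : ℝ) ^ 5 * l * L ^ 4 / δ ^ 3 = 10 ^ 5 * (l * L ^ 4 / δ ^ 3) := by ring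
      rw [e5]
      linarith
    exact_mod_cast hfinal

end DeckG
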