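import Pool.Agent.DeckG.Two

/-!
# Reconstruction of strings with many factors: the theorems
-/

namespace DeckG

open DeckA

/-- **Strings with many factors.** -/
theorem recon_of_factors {n l S k : ℕ} {δ : ℝ} (x : Fin n → Bool) (hn : 2 ≤ n) (hl : 1 ≤ l)
    (hlS : l ≤ S) (hSn : S ≤ n) (hδ : 0 < δ) (hδ1 : δ ≤ 1)
    (hx : ∀ v : List Bool, v <:+: List.ofFn x → S ≤ v.length →
      δ * (v.length : ℝ) ≤ (nfac l v : ℝ))
    (hk : S + 10 ^ 5 * l * Real.log n ^ 4 / δ ^ 3 ≤ k ∨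
      2 * 10 ^ 8 * l * Real.sqrt S * Real.log n ^ 6 / δ ^ 4 ≤ k) (hkn : k ≤ n) :
    Reconstructible k x := by
  intro y hy
  set X := seqOf (List.ofFn x) with hX
  set Y := seqOf (List.ofFn y) with hY
  have hXp : pre X n = List.ofFn x := by
    have := pre_seqOf (List.ofFn x)
    rwa [List.length_ofFn] at this
  have hYp : pre Y n = List.ofFn y := by
    have := pre_seqOf (List.ofFn y)
    rwa [List.length_ofFn] at this
  have hcnt : ∀ z : List Bool, z.length ≤ k → cnt z (pre X n) = cnt z (pre Y n) := by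
    rw [hXp, hYp]
    exact cnt_eq_of_deck hkn hy.symm
  have hfac : ∀ a b, a + S ≤ b → b ≤ n →
      δ * ((b : ℝ) - a) ≤ (nfac l (win X a (b - a)) : ℝ) := by
    intro a b hab hb
    have h1 := hx (win X a (b - a)) (hXp ▸ win_infix X (by omega) hb)
      (by rw [length_win]; omega)
    rw [length_win, Nat.cast_sub (by omega)] at h1
    exact h1
  have key : ∀ i < n, X i = Y i := by
    rcases hk with hk | hk
    · exact part_one hn hl hδ hδ1 X Y hcnt hfac hk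
    · exact part_two hn hl hlS hSn hδ hδ1 X Y hcnt hfac hk hkn
  have h2 := pre_congr key
  rw [hXp, hYp] at h2
  exact (List.ofFn_injective h2).symm

open Filter in
/-- Strings that are not determined by their `n ^ (1 / 2 - ε)`-decks have long factors with few
factors. -/
theorem exists_poor_factor {ε : ℝ} (hε : 0 < ε) (hε' : ε < 1 / 14) :
    ∃ N : ℕ, ∀ n k : ℕ, N ≤ n → k ≤ n → (n : ℝ) ^ (1 / 2 - ε) ≤ k → ∀ x : Fin n → Bool,
      ¬ Reconstructible k x → ∃ v : List Bool, v <:+: List.ofFn x ∧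
        (n : ℝ) ^ (1 - 13 * ε) ≤ v.length ∧
        (nfac ⌈(n : ℝ) ^ ε⌉₊ v : ℝ) < (n : ℝ) ^ (-ε) * v.length := by
  have hlo := (isLittleO_log_rpow_rpow_atTop (s := ε / 2) 6 (by positivity)).bound
    (show (0 : ℝ) < 1 / 10 ^ 9 by norm_num)
  have hev := (tendsto_natCast_atTop_atTop (R := ℝ)).eventually hlo
  obtain ⟨N0, hN0⟩ := eventually_atTop.1 hev
  refine ⟨max N0 2, fun n k hn hkn hk x hx => ?_⟩
  have hn2 : 2 ≤ n := le_trans (le_max_right _ _) hn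
  have hnr : (2 : ℝ) ≤ n := by exact_mod_cast hn2
  have hn1 : (1 : ℝ) ≤ n := by linarith
  have hn0 : (0 : ℝ) < n := by linarith
  have hlog : 10 ^ 9 * Real.log n ^ 6 ≤ (n : ℝ) ^ (ε / 2) := by
    have h1 := hN0 n (le_trans (le_max_left _ _) hn)
    have h2 : Real.log (n : ℝ) ^ (6 : ℝ) = Real.log n ^ 6 := by
      rw [← Real.rpow_natCast]; norm_num
    rw [h2, Real.norm_eq_abs, Real.norm_eq_abs, abs_of_nonneg (by positivity),
      abs_of_nonneg (by positivity)] at h1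
    linarith
  by_contra hcon
  push Not at hcon
  apply hx
  have hp1 : (1 : ℝ) ≤ (n : ℝ) ^ ε := Real.one_le_rpow hn1 hε.le
  have hp2 : (1 : ℝ) ≤ (n : ℝ) ^ (1 - 13 * ε) := Real.one_le_rpow hn1 (by linarith)
  have hmono : (n : ℝ) ^ ε ≤ (n : ℝ) ^ (1 - 13 * ε) :=
    Real.rpow_le_rpow_of_exponent_le hn1 (by linarith)
  have hle : (n : ℝ) ^ (1 - 13 * ε) ≤ n := by
    calc (n : ℝ) ^ (1 - 13 * ε) ≤ (n : ℝ) ^ (1 : ℝ) :=
          Real.rpow_le_rpow_of_exponent_le hn1 (by linarith)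
      _ = n := Real.rpow_one _
  refine recon_of_factors (l := ⌈(n : ℝ) ^ ε⌉₊) (S := ⌈(n : ℝ) ^ (1 - 13 * ε)⌉₊)
    (δ := (n : ℝ) ^ (-ε)) x hn2 ?_ (Nat.ceil_mono hmono) (Nat.ceil_le.2 hle) (by positivity) ?_ ?_
    (Or.inr (le_trans ?_ hk)) hkn
  · exact Nat.one_le_ceil_iff.2 (by linarith)
  · rw [Real.rpow_neg hn0.le]
    exact inv_le_one_of_one_le₀ hp1
  · intro v hv hvl
    exact hcon v hv ((Nat.le_ceil _).trans (by exact_mod_cast hvl))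
  · have hl : (⌈(n : ℝ) ^ ε⌉₊ : ℝ) ≤ 2 * (n : ℝ) ^ ε := by
      have := (Nat.ceil_lt_add_one (a := (n : ℝ) ^ ε) (by positivity)).le
      linarith
    have hS : Real.sqrt (⌈(n : ℝ) ^ (1 - 13 * ε)⌉₊ : ℝ) ≤ 2 * (n : ℝ) ^ ((1 - 13 * ε) / 2) := by
      rw [Real.sqrt_le_left (by positivity)]
      have h1 := (Nat.ceil_lt_add_one (a := (n : ℝ) ^ (1 - 13 * ε)) (by positivity)).le
      have h2 : (2 * (n : ℝ) ^ ((1 - 13 * ε) / 2)) ^ 2 = 4 * (n : ℝ) ^ (1 - 13 * ε) := by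
        rw [mul_pow, ← Real.rpow_natCast ((n : ℝ) ^ ((1 - 13 * ε) / 2)) 2, ← Real.rpow_mul hn0.le]
        norm_num
      rw [h2]
      linarith
    have hδ : ((n : ℝ) ^ (-ε)) ^ 4 = ((n : ℝ) ^ (4 * ε))⁻¹ := by
      rw [← Real.rpow_natCast ((n : ℝ) ^ (-ε)) 4, ← Real.rpow_mul hn0.le, ← Real.rpow_neg hn0.le]
      congr 1
      push_cast
      ring
    rw [hδ, div_inv_eq_mul]
    have h1 : 2 * 10 ^ 8 * (⌈(n : ℝ) ^ ε⌉₊ : ℝ) * Real.sqrt (⌈(n : ℝ) ^ (1 - 13 * ε)⌉₊ : ℝ) ≤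
        2 * 10 ^ 8 * (2 * (n : ℝ) ^ ε) * (2 * (n : ℝ) ^ ((1 - 13 * ε) / 2)) :=
      mul_le_mul (mul_le_mul_of_nonneg_left hl (by norm_num)) hS (Real.sqrt_nonneg _)
        (by positivity)
    have hlog0 : 0 ≤ Real.log n := Real.log_nonneg hn1
    have h2 := mul_le_mul_of_nonneg_right h1
      (show 0 ≤ Real.log n ^ 6 * (n : ℝ) ^ (4 * ε) by positivity)
    have h3 : 2 * 10 ^ 8 * (2 * (n : ℝ) ^ ε) * (2 * (n : ℝ) ^ ((1 - 13 * ε) / 2)) *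
        (Real.log n ^ 6 * (n : ℝ) ^ (4 * ε)) ≤
        (10 ^ 9 * Real.log n ^ 6) *
          ((n : ℝ) ^ ε * (n : ℝ) ^ ((1 - 13 * ε) / 2) * (n : ℝ) ^ (4 * ε)) := by
      have h4 : 0 ≤ Real.log n ^ 6 *
          ((n : ℝ) ^ ε * (n : ℝ) ^ ((1 - 13 * ε) / 2) * (n : ℝ) ^ (4 * ε)) := by positivity
      linarith
    have h5 : (10 ^ 9 * Real.log n ^ 6) *
          ((n : ℝ) ^ ε * (n : ℝ) ^ ((1 - 13 * ε) / 2) * (n : ℝ) ^ (4 * ε)) ≤
        (n : ℝ) ^ (ε / 2) *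
          ((n : ℝ) ^ ε * (n : ℝ) ^ ((1 - 13 * ε) / 2) * (n : ℝ) ^ (4 * ε)) :=
      mul_le_mul_of_nonneg_right hlog (by positivity)
    have h6 : (n : ℝ) ^ (ε / 2) *
          ((n : ℝ) ^ ε * (n : ℝ) ^ ((1 - 13 * ε) / 2) * (n : ℝ) ^ (4 * ε)) =
        (n : ℝ) ^ (1 / 2 - ε) := by
      rw [← Real.rpow_add hn0, ← Real.rpow_add hn0, ← Real.rpow_add hn0]
      congr 1
      ring
    calc 2 * 10 ^ 8 * (⌈(n : ℝ) ^ ε⌉₊ : ℝ) * Real.sqrt (⌈(n : ℝ) ^ (1 - 13 * ε)⌉₊ : ℝ) *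
          Real.log n ^ 6 * (n : ℝ) ^ (4 * ε)
        = 2 * 10 ^ 8 * (⌈(n : ℝ) ^ ε⌉₊ : ℝ) * Real.sqrt (⌈(n : ℝ) ^ (1 - 13 * ε)⌉₊ : ℝ) *
          (Real.log n ^ 6 * (n : ℝ) ^ (4 * ε)) := by ring
      _ ≤ _ := h2
      _ ≤ _ := h3
      _ ≤ _ := h5
      _ = _ := h6

end DeckG
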