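import Pool.Agent.DeckG.Defs
import Pool.Agent.DeckG.Amp
import Pool.Agent.DeckG.Dens
import Pool.Agent.DeckB.RepMain

/-!
# Reconstruction of strings with many factors: the combination
-/

namespace DeckG

open DeckA

/-! ## Factors -/

lemma pre_congr {f g : ℕ → Bool} : ∀ {s : ℕ}, (∀ i < s, f i = g i) → pre f s = pre g s
  | 0, _ => rfl
  | s + 1, h => by
    have h1 : pre f (s + 1) = f s :: pre f s := rfl
    have h2 : pre g (s + 1) = g s :: pre g s := rfl
    rw [h1, h2, h s (by omega), pre_congr fun i hi => h i (by omega)]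

/-- The letters of a word, read from its end. -/
def seqOf (w : List Bool) (i : ℕ) : Bool := w.reverse.getD i false

lemma pre_seqOf : ∀ w : List Bool, pre (seqOf w) w.length = w
  | [] => rfl
  | c :: w => by
    have h1 : pre (seqOf (c :: w)) (c :: w).length =
        seqOf (c :: w) w.length :: pre (seqOf (c :: w)) w.length := rfl
    have h2 : seqOf (c :: w) w.length = c := by
      unfold seqOf
      rw [List.reverse_cons, List.getD_eq_getElem?_getD, List.getElem?_append_right (by simp)]
      simp
    have h3 : pre (seqOf (c :: w)) w.length = pre (seqOf w) w.length := by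
      refine pre_congr fun i hi => ?_
      unfold seqOf
      rw [List.reverse_cons, List.getD_eq_getElem?_getD, List.getD_eq_getElem?_getD,
        List.getElem?_append_left (by simpa using hi)]
    rw [h1, h2, h3, pre_seqOf w]

lemma win_of_append {f : ℕ → Bool} {m : ℕ} {u w v : List Bool} (h : pre f m = u ++ w ++ v) :
    w = win f v.length w.length ∧ v.length + w.length ≤ m := by
  have hlen := congrArg List.length h
  rw [length_pre, List.length_append, List.length_append] at hlen
  have h1 : pre f m = win f (v.length + w.length) u.length ++ (win f v.length w.length ++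
      pre f v.length) := by
    rw [← pre_add, ← pre_add]
    congr 1
    omega
  rw [h1, List.append_assoc] at h
  obtain ⟨-, h2⟩ := List.append_inj h (by simp)
  obtain ⟨h3, -⟩ := List.append_inj h2 (by simp)
  exact ⟨h3.symm, by omega⟩

lemma win_win (x : ℕ → Bool) (a b s : ℕ) : win (fun i => x (a + i)) b s = win x (a + b) s := by
  unfold win
  exact pre_congr fun i _ => by rw [add_assoc]

lemma nfac_win (l : ℕ) (x : ℕ → Bool) {a b : ℕ} (hab : a ≤ b) :
    nfac l (win x a (b - a)) ≤
      ((Finset.Ico a (b + 1 - l)).image fun i => win x i l).card := by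
  classical
  unfold nfac
  have hsub : {w : List Bool | w <:+: win x a (b - a) ∧ w.length = l} ⊆
      (((Finset.Ico a (b + 1 - l)).image fun i => win x i l : Finset (List Bool)) :
        Set (List Bool)) := by
    rintro w ⟨⟨u, v, huv⟩, hw⟩
    have h1 : pre (fun i => x (a + i)) (b - a) = u ++ w ++ v := huv.symm
    obtain ⟨h2, h3⟩ := win_of_append h1
    rw [hw] at h2 h3
    rw [win_win] at h2
    refine Finset.mem_coe.2 (Finset.mem_image.2 ⟨a + v.length, ?_, h2.symm⟩)
    rw [Finset.mem_Ico]
    omega
  have := Set.ncard_le_ncard hsub (Finset.finite_toSet _)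
  rwa [Set.ncard_coe_finset] at this

lemma win_infix (x : ℕ → Bool) {a b n : ℕ} (hab : a ≤ b) (hb : b ≤ n) :
    win x a (b - a) <:+: pre x n := by
  refine ⟨win x b (n - b), pre x a, ?_⟩
  rw [List.append_assoc, ← pre_add, ← Nat.add_sub_assoc hab, Nat.add_sub_cancel_left, ← pre_add]
  congr 1
  omega

/-! ## The final intervals -/

/-- All words of length at most `m` determine a word of length at most `m`. -/
lemma fin_trivial {M k' : ℕ} (hM : 1 ≤ M) {u w : List Bool} (hl : u.length = w.length)
    (hk : u.length ≤ k')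
    (h : ∀ v : List Bool, v.length ≤ k' →
      ((cnt v u : ℕ) : ZMod (2 ^ M)) = (cnt v w : ZMod (2 ^ M))) : u = w := by
  have h1 := h u hk
  rw [cnt_self, cnt_same_length w u hl.symm] at h1
  by_contra hne
  rw [if_neg hne] at h1
  have h2 := natCast_inj (M := M) (Nat.one_lt_two_pow (by omega)) (Nat.two_pow_pos M) h1
  omega

lemma cnt_le_pow : ∀ u v : List Bool, cnt v u ≤ u.length ^ v.length
  | _, [] => by simp
  | [], _ :: _ => by simp
  | d :: u, c :: z => by
    have h1 := cnt_le_pow u (c :: z)
    have h2 := cnt_le_pow u z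
    rw [cnt_cons_cons]
    have h3 : (if c = d then cnt z u else 0) ≤ u.length ^ z.length := by
      split_ifs
      · exact h2
      · exact Nat.zero_le _
    have h4 : u.length ^ z.length ≤ (u.length + 1) ^ z.length :=
      Nat.pow_le_pow_left (by omega) _
    calc cnt (c :: z) u + (if c = d then cnt z u else 0)
        ≤ u.length ^ (z.length + 1) + u.length ^ z.length := Nat.add_le_add h1 h3
      _ = (u.length + 1) * u.length ^ z.length := by ring
      _ ≤ (u.length + 1) * (u.length + 1) ^ z.length := Nat.mul_le_mul_left _ h4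
      _ = (d :: u).length ^ (c :: z).length := by
        rw [List.length_cons, List.length_cons]; ring

/-- The known `√m log m` bound, for counts modulo a large power of two. -/
lemma fin_sqrt {M k' S : ℕ} (hS : 1 ≤ S) (hM : S ^ k' < 2 ^ M)
    (hk : 50 * Real.sqrt S * Real.log S ≤ k') {u w : List Bool} (hl : u.length = w.length)
    (hu : u.length < S)
    (h : ∀ v : List Bool, v.length ≤ k' →
      ((cnt v u : ℕ) : ZMod (2 ^ M)) = (cnt v w : ZMod (2 ^ M))) : u = w := by
  have hlt : ∀ z : List Bool, z.length < S → ∀ v : List Bool, v.length ≤ k' →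
      cnt v z < 2 ^ M := by
    intro z hz v hv
    refine lt_of_le_of_lt (cnt_le_pow z v) (lt_of_le_of_lt ?_ hM)
    exact (Nat.pow_le_pow_left hz.le _).trans (Nat.pow_le_pow_right hS hv)
  have heq : ∀ v : List Bool, v.length ≤ k' → cnt v u = cnt v w := fun v hv =>
    natCast_inj (hlt u hu v hv) (hlt w (hl ▸ hu) v hv) (h v hv)
  by_cases hk' : u.length ≤ k'
  · have h1 := heq u hk'
    rw [cnt_self, cnt_same_length w u hl.symm] at h1
    by_contra hne
    rw [if_neg hne] at h1
    omega
  · rw [not_le] at hk'
    rcases Nat.lt_or_ge u.length 2 with h2 | h2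
    · -- length at most one: `k' = 0`
      have hk0 : k' = 0 := by omega
      have hS2 : 2 ≤ S := by omega
      have h3 : (0 : ℝ) < 50 * Real.sqrt S * Real.log S := by
        have h4 : (2 : ℝ) ≤ S := by exact_mod_cast hS2
        have h5 := Real.log_pos (show (1 : ℝ) < S by linarith)
        have h6 := Real.sqrt_pos.2 (show (0 : ℝ) < S by linarith)
        positivity
      rw [hk0] at hk
      norm_num at hk
      linarith
    · have hrec := DeckB.recon_of_local_pieces (n := u.length) (S := 1) (m := 1) (k := k') h2
        le_rfl (by omega) le_rfl (fun i => u[i]) ?_ ?_ hk'.le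
      · have h3 := hrec (fun i => w[i.1]'(by have := i.2; omega)) ?_
        · have e1 : List.ofFn (fun i : Fin u.length => u[i]) = u := by
            simp
          have e2 : List.ofFn (fun i : Fin u.length => w[i.1]'(by have := i.2; omega)) = w := by
            apply List.ext_getElem
            · simp [hl]
            · intro i h5 h6
              simp
          exact e1.symm.trans ((congrArg List.ofFn h3).symm.trans e2)
        · rw [deck_ext_iff]
          intro z hz
          have e1 : List.ofFn (fun i : Fin u.length => u[i]) = u := by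
            simp
          have e2 : List.ofFn (fun i : Fin u.length => w[i.1]'(by have := i.2; omega)) = w := by
            apply List.ext_getElem
            · simp [hl]
            · intro i h5 h6
              simp
          rw [e1, e2]
          exact (heq z (by omega)).symm
      · intro W _ hW
        refine ⟨[(W, 1)], ⟨?_, by simp⟩, by simp⟩
        intro a ha
        rw [List.mem_singleton] at ha
        subst ha
        refine ⟨le_rfl, fun i hi => ?_⟩
        simp only at hi
        omega
      · have h3 : ((u.length : ℕ) : ℝ) ≤ S := by exact_mod_cast hu.le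
        have h4 : (1 : ℝ) ≤ (u.length : ℕ) := by exact_mod_cast (by omega : 1 ≤ u.length)
        have h5 : Real.sqrt ((u.length : ℝ) / ((1 : ℕ) : ℝ)) ≤ Real.sqrt S := by
          apply Real.sqrt_le_sqrt
          simpa using h3
        have h6 : Real.log u.length ≤ Real.log S := Real.log_le_log (by linarith) h3
        have h7 : 0 ≤ Real.log u.length := Real.log_nonneg h4
        have h8 : 0 ≤ Real.sqrt S := Real.sqrt_nonneg _
        refine le_trans ?_ hk
        have h9 : Real.sqrt ((u.length : ℝ) / ((1 : ℕ) : ℝ)) * Real.log u.length ≤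
            Real.sqrt S * Real.log S := mul_le_mul h5 h6 h7 h8
        push_cast at h9 ⊢
        linarith

/-! ## The combination -/

open Classical in
lemma exists_hh {M t n : ℕ} (hM : 1 ≤ M) (x y : ℕ → Bool) (κ : List Bool) :
    ∃ h ∈ PolZ ((2 * M - 1) * (t * Nat.log 2 (2 * n + 2))),
      IsInd M t n x κ h ∧ IsInd M t n y κ h := by
  set A : Finset (List Bool) := (Finset.range (n + 1)).image (pre x) ∪
    (Finset.range (n + 1)).image (pre y) with hA
  have hcard : A.card ≤ 2 * n + 2 := by
    refine (Finset.card_union_le _ _).trans ?_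
    have h1 := Finset.card_image_le (s := Finset.range (n + 1)) (f := pre x)
    have h2 := Finset.card_image_le (s := Finset.range (n + 1)) (f := pre y)
    rw [Finset.card_range] at h1 h2
    omega
  have hne : A.Nonempty := ⟨pre x 0, Finset.mem_union_left _
    (Finset.mem_image.2 ⟨0, Finset.mem_range.2 (by omega), rfl⟩)⟩
  obtain ⟨h, hh, hv⟩ := exists_ind t M hM A hne κ
  refine ⟨h, PolZ_mono ?_ hh, fun i hi => ?_, fun i hi => ?_⟩
  · exact Nat.mul_le_mul_left _ (Nat.mul_le_mul_left _ (Nat.log_mono_right hcard))
  · exact hv _ (Finset.mem_union_left _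
      (Finset.mem_image.2 ⟨i, Finset.mem_range.2 (by omega), rfl⟩))
  · exact hv _ (Finset.mem_union_right _
      (Finset.mem_image.2 ⟨i, Finset.mem_range.2 (by omega), rfl⟩))

/-- **The combination**, with free parameters. -/
theorem recon_core {n k S l s M k' R S' : ℕ} {δ : ℝ} (x y : ℕ → Bool)
    (hk : ∀ z : List Bool, z.length ≤ k → cnt z (pre x n) = cnt z (pre y n))
    (hl : 1 ≤ l) (hs : 1 ≤ s) (hδ : 0 < δ) (hδ1 : δ ≤ 1)
    (hfac : ∀ a b, a + S ≤ b → b ≤ n → δ * ((b : ℝ) - a) ≤ (nfac l (win x a (b - a)) : ℝ))
    (hbig : 16 * Real.log ((n : ℝ) + 1) ≤ δ * Real.log 2 * s)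
    (hS : S ≤ S') (hS' : s * l ≤ S') (hM1 : 1 ≤ M) (hM : n < 2 ^ M)
    (hfin : ∀ u w : List Bool, u.length = w.length → u.length < S' →
      (∀ v : List Bool, v.length ≤ k' →
        ((cnt v u : ℕ) : ZMod (2 ^ M)) = (cnt v w : ZMod (2 ^ M))) → u = w)
    (hR : (1 - δ / 4) ^ R * (n : ℝ) < S')
    (hcost : (2 * R + 1) * ((⌊4 / δ⌋₊ + 1) *
      ((2 * M - 1) * (s * l * Nat.log 2 (2 * n + 2)) + 1)) +
      ((2 * M - 1) * (s * l * Nat.log 2 (2 * n + 2)) + 1) + 1 + k' ≤ k) :
    ∀ i < n, x i = y i := by
  refine core (t := s * l) (μ := ⌊4 / δ⌋₊ + 1) (η := δ / 4) (R := R) (k' := k') (S := S') hk hM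
    (fun κ => exists_hh hM1 x y κ) (by linarith) ?_ hfin hR ?_
  · intro a b hab hb
    have hab' : a ≤ b := by omega
    refine dens x hl hs rfl (by omega) hδ ?_ ?_
    · refine le_trans ?_ hbig
      have h1 : ((s * l : ℕ) : ℝ) + 1 ≤ (n : ℝ) + 1 := by
        have : s * l ≤ n := by omega
        have : ((s * l : ℕ) : ℝ) ≤ n := by exact_mod_cast this
        linarith
      have h2 : (b : ℝ) + 1 - a ≤ (n : ℝ) + 1 := by
        have h3 : (b : ℝ) ≤ n := by exact_mod_cast hb
        have h4 : (0 : ℝ) ≤ a := Nat.cast_nonneg a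
        linarith
      have h5 : (0 : ℝ) < (b : ℝ) + 1 - a := by
        have : (a : ℝ) ≤ b := by exact_mod_cast hab'
        linarith
      have h6 : (0 : ℝ) < ((s * l : ℕ) : ℝ) + 1 := by positivity
      have h7 : Real.log ((((s * l : ℕ) : ℝ) + 1) * ((b : ℝ) + 1 - a)) ≤
          2 * Real.log ((n : ℝ) + 1) := by
        rw [Real.log_mul h6.ne' h5.ne', two_mul]
        exact add_le_add (Real.log_le_log h6 h1) (Real.log_le_log h5 h2)
      linarith
    · refine (hfac a b (by omega) hb).trans ?_
      exact_mod_cast nfac_win l x hab'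
  · refine le_trans (le_of_eq ?_) hcost
    ring

end DeckG
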