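import Pool.Agent.DeckA.Pol

/-!
# The filtered ring of integer combinations of scattered subword counts
-/

namespace DeckG

open DeckA

/-- The functions on words spanned over the integers by the counts of words of length at most
`d`. -/
def PolZ (d : ℕ) : Submodule ℤ (List Bool → ℤ) :=
  Submodule.span ℤ {f | ∃ z : List Bool, z.length ≤ d ∧ f = fun w => (cnt z w : ℤ)}

lemma cnt_memZ {z : List Bool} {d : ℕ} (h : z.length ≤ d) :
    (fun w => (cnt z w : ℤ)) ∈ PolZ d :=
  Submodule.subset_span ⟨z, h, rfl⟩

lemma PolZ_mono {a b : ℕ} (h : a ≤ b) : PolZ a ≤ PolZ b := by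
  apply Submodule.span_mono
  rintro f ⟨z, hz, rfl⟩
  exact ⟨z, hz.trans h, rfl⟩

/-- The summation operator: `(J s h)(w)` is the sum of `h` over the suffixes `v` of `w` for which
`s :: v` is also a suffix of `w`. -/
def J (s : Bool) (h : List Bool → ℤ) : List Bool → ℤ
  | [] => 0
  | d :: w => J s h w + if s = d then h w else 0

lemma J_cnt (s : Bool) (z : List Bool) :
    J s (fun w => (cnt z w : ℤ)) = fun w => (cnt (s :: z) w : ℤ) := by
  funext w
  induction w with
  | nil => simp [J]
  | cons d w ih =>
    rw [J, ih, cnt_cons_cons]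
    push_cast
    congr 1

lemma J_add (s : Bool) (f g : List Bool → ℤ) : J s (f + g) = J s f + J s g := by
  funext w
  induction w with
  | nil => simp [J]
  | cons d w ih =>
    simp only [J, Pi.add_apply] at ih ⊢
    rw [ih]
    split_ifs <;> ring

lemma J_smul (s : Bool) (c : ℤ) (f : List Bool → ℤ) : J s (c • f) = c • J s f := by
  funext w
  induction w with
  | nil => simp [J]
  | cons d w ih =>
    simp only [J, Pi.smul_apply, smul_eq_mul] at ih ⊢
    rw [ih]
    split_ifs <;> ring

lemma J_zero (s : Bool) : J s 0 = 0 := by
  have := J_smul s 0 0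
  simpa using this

lemma J_mul (s t : Bool) (f g : List Bool → ℤ) :
    J s f * J t g = J s (f * J t g) + J t (J s f * g) + if s = t then J s (f * g) else 0 := by
  funext w
  induction w with
  | nil =>
    by_cases h : s = t <;> simp [J, h]
  | cons d w ih =>
    by_cases h : s = t
    · subst h
      simp only [J, Pi.mul_apply, Pi.add_apply, if_true] at ih ⊢
      by_cases hd : s = d
      · simp only [hd, if_true] at ih ⊢
        linear_combination ih
      · simp only [hd, if_false] at ih ⊢
        linear_combination ih
    · simp only [J, Pi.mul_apply, Pi.add_apply, h, if_false, Pi.zero_apply] at ih ⊢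
      by_cases hd : s = d
      · have ht : ¬ t = d := fun h' => h (hd.trans h'.symm)
        simp only [hd, ht, if_true, if_false] at ih ⊢
        linear_combination ih
      · simp only [hd, if_false] at ih ⊢
        by_cases ht : t = d
        · simp only [ht, if_true] at ih ⊢
          linear_combination ih
        · simp only [ht, if_false] at ih ⊢
          linear_combination ih

lemma J_mem {d : ℕ} (s : Bool) {f : List Bool → ℤ} (hf : f ∈ PolZ d) : J s f ∈ PolZ (d + 1) := by
  induction hf using Submodule.span_induction with
  | mem f hf =>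
    obtain ⟨z, hz, rfl⟩ := hf
    rw [J_cnt]
    exact cnt_memZ (by simpa using hz)
  | zero => rw [J_zero]; exact zero_mem _
  | add f g _ _ hf hg => rw [J_add]; exact add_mem hf hg
  | smul c f _ hf => rw [J_smul]; exact Submodule.smul_mem _ _ hf

lemma cnt_mul_memZ : ∀ (n : ℕ) (u v : List Bool), u.length + v.length = n →
    (fun w => (cnt u w : ℤ)) * (fun w => (cnt v w : ℤ)) ∈ PolZ n := by
  intro n
  induction n using Nat.strong_induction_on with
  | _ n ih =>
    intro u v hn
    match u, v with
    | [], v =>
      have : (fun w => (cnt [] w : ℤ)) * (fun w => (cnt v w : ℤ)) = fun w => (cnt v w : ℤ) := by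
        funext w; simp
      rw [this]
      exact cnt_memZ (by simp at hn; omega)
    | u, [] =>
      have : (fun w => (cnt u w : ℤ)) * (fun w => (cnt [] w : ℤ)) = fun w => (cnt u w : ℤ) := by
        funext w; simp
      rw [this]
      exact cnt_memZ (by simp at hn; omega)
    | s :: u, t :: v =>
      simp only [List.length_cons] at hn
      have h1 : J s ((fun w => (cnt u w : ℤ)) * J t (fun w => (cnt v w : ℤ))) ∈ PolZ n := by
        rw [J_cnt]
        have := J_mem s (ih (u.length + (t :: v).length) (by simp; omega) u (t :: v) rfl)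
        exact PolZ_mono (by simp; omega) this
      have h2 : J t (J s (fun w => (cnt u w : ℤ)) * (fun w => (cnt v w : ℤ))) ∈ PolZ n := by
        rw [J_cnt]
        have := J_mem t (ih ((s :: u).length + v.length) (by simp; omega) (s :: u) v rfl)
        exact PolZ_mono (by simp; omega) this
      have h3 : J s ((fun w => (cnt u w : ℤ)) * (fun w => (cnt v w : ℤ))) ∈ PolZ n := by
        have := J_mem s (ih (u.length + v.length) (by omega) u v rfl)
        exact PolZ_mono (by omega) this
      rw [← J_cnt, ← J_cnt, J_mul]
      refine add_mem (add_mem h1 h2) ?_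
      split_ifs
      · exact h3
      · exact zero_mem _

lemma mul_memZ {a b : ℕ} {f g : List Bool → ℤ} (hf : f ∈ PolZ a) (hg : g ∈ PolZ b) :
    f * g ∈ PolZ (a + b) := by
  induction hf using Submodule.span_induction with
  | mem f hf =>
    obtain ⟨u, hu, rfl⟩ := hf
    induction hg using Submodule.span_induction with
    | mem g hg =>
      obtain ⟨v, hv, rfl⟩ := hg
      exact PolZ_mono (by omega) (cnt_mul_memZ _ u v rfl)
    | zero => rw [mul_zero]; exact zero_mem _
    | add f g _ _ hf hg => rw [mul_add]; exact add_mem hf hg
    | smul c f _ hf => rw [mul_smul_comm]; exact Submodule.smul_mem _ _ hf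
  | zero => rw [zero_mul]; exact zero_mem _
  | add f g _ _ hf hg => rw [add_mul]; exact add_mem hf hg
  | smul c f _ hf => rw [smul_mul_assoc]; exact Submodule.smul_mem _ _ hf

lemma one_memZ (a : ℕ) : (1 : List Bool → ℤ) ∈ PolZ a := by
  have : (1 : List Bool → ℤ) = fun w => (cnt [] w : ℤ) := by funext w; simp
  rw [this]; exact cnt_memZ (by simp)

lemma const_memZ (a : ℕ) (c : ℤ) : (fun _ => c : List Bool → ℤ) ∈ PolZ a := by
  have : (fun _ => c : List Bool → ℤ) = c • (1 : List Bool → ℤ) := by funext w; simp
  rw [this]; exact Submodule.smul_mem _ _ (one_memZ a)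

lemma pow_memZ {a : ℕ} {f : List Bool → ℤ} (hf : f ∈ PolZ a) (j : ℕ) : f ^ j ∈ PolZ (j * a) := by
  induction j with
  | zero => rw [pow_zero]; exact one_memZ _
  | succ j ih =>
    rw [pow_succ]
    have := mul_memZ ih hf
    exact PolZ_mono (by rw [Nat.succ_mul]) this

/-- Functions in `PolZ k` are determined by the counts of words of length at most `k`. -/
lemma evalZ_eq {k : ℕ} {v w : List Bool} (h : ∀ z : List Bool, z.length ≤ k → cnt z v = cnt z w)
    {F : List Bool → ℤ} (hF : F ∈ PolZ k) : F v = F w := by
  induction hF using Submodule.span_induction with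
  | mem f hf =>
    obtain ⟨z, hz, rfl⟩ := hf
    simp only [h z hz]
  | zero => rfl
  | add f g _ _ hf hg => simp only [Pi.add_apply, hf, hg]
  | smul c f _ hf => simp only [Pi.smul_apply, hf]

/-! ## Words read up to a time -/

/-- The word `x_(n-1) ... x_0` of the letters of the sequence `x` before the time `n`. -/
def pre (x : ℕ → Bool) : ℕ → List Bool
  | 0 => []
  | n + 1 => x n :: pre x n

@[simp] lemma length_pre (x : ℕ → Bool) (n : ℕ) : (pre x n).length = n := by
  induction n with
  | zero => rfl
  | succ n ih => simp [pre, ih]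

/-- The word read in the time interval `[a, a + s)`. -/
def win (x : ℕ → Bool) (a s : ℕ) : List Bool := pre (fun i => x (a + i)) s

@[simp] lemma length_win (x : ℕ → Bool) (a s : ℕ) : (win x a s).length = s := length_pre _ _

lemma pre_add (x : ℕ → Bool) (a s : ℕ) : pre x (a + s) = win x a s ++ pre x a := by
  induction s with
  | zero => rfl
  | succ s ih =>
    have : pre x (a + (s + 1)) = x (a + s) :: pre x (a + s) := rfl
    rw [this, ih]
    rfl

lemma J_pre (c : Bool) (F : List Bool → ℤ) (x : ℕ → Bool) (j : ℕ) :
    J c F (pre x j) = ∑ i ∈ Finset.range j, if c = x i then F (pre x i) else 0 := by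
  induction j with
  | zero => rfl
  | succ j ih =>
    rw [Finset.sum_range_succ, ← ih]
    rfl

end DeckG
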