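import Pool.Agent.DeckG.Fin

/-!
# The choice of the parameters: long windows
-/

namespace DeckG

open DeckA

/-- **Part 2.** -/
theorem part_two {n l S k : ℕ} {δ : ℝ} (hn : 2 ≤ n) (hl : 1 ≤ l) (hlS : l ≤ S) (hSn : S ≤ n)
    (hδ : 0 < δ) (hδ1 : δ ≤ 1) (x y : ℕ → Bool)
    (hk : ∀ z : List Bool, z.length ≤ k → cnt z (pre x n) = cnt z (pre y n))
    (hfac : ∀ a b, a + S ≤ b → b ≤ n → δ * ((b : ℝ) - a) ≤ (nfac l (win x a (b - a)) : ℝ))
    (hkk : 2 * 10 ^ 8 * l * Real.sqrt S * Real.log n ^ 6 / δ ^ 4 ≤ k) (hkn : k ≤ n) :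
    ∀ i < n, x i = y i := by
  obtain ⟨s, R, h1, h2, h3, h4, h5, h6, h7⟩ := params hn hδ hδ1
  have hl2 := Real.log_two_gt_d9
  have hL := log_ge hn
  have hlogn := natlog_le' (m := n) (by omega) (A := Real.log n) le_rfl
  have hn2 : (2 : ℝ) ≤ n := by exact_mod_cast hn
  set L := Real.log n with hLdef
  have hL0 : (0.69 : ℝ) ≤ L := by linarith
  have hl' : (1 : ℝ) ≤ l := by exact_mod_cast hl
  have hS1 : (1 : ℝ) ≤ S := by exact_mod_cast (by omega : 1 ≤ S)
  set w := L / δ with hw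
  have hwL : L ≤ w := le_div_self (by linarith) hδ hδ1
  have hw0 : (0.69 : ℝ) ≤ w := by linarith
  have hδ' : (1 : ℝ) ≤ 1 / δ := by rw [le_div_iff₀ hδ]; linarith
  set q := Real.sqrt S with hq
  have hq1 : 1 ≤ q := by rw [hq, Real.one_le_sqrt]; exact hS1
  have hqS : q * q = S := Real.mul_self_sqrt (by linarith)
  -- the goal scale
  set X := l * q * L ^ 2 * w ^ 4 with hX
  have eX : 2 * 10 ^ 8 * l * q * L ^ 6 / δ ^ 4 = 2 * 10 ^ 8 * X := by
    rw [hX, hw]; field_simp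
  rw [eX] at hkk
  have hL2 : (0.47 : ℝ) ≤ L ^ 2 := by
    have := pow_le_pow_left₀ (by norm_num : (0 : ℝ) ≤ 0.69) hL0 2
    norm_num at this ⊢; linarith
  have hw2 : (0.47 : ℝ) ≤ w ^ 2 := by
    have := pow_le_pow_left₀ (by norm_num : (0 : ℝ) ≤ 0.69) hw0 2
    norm_num at this ⊢; linarith
  have hw3 : (0.32 : ℝ) ≤ w ^ 3 := by
    have := pow_le_pow_left₀ (by norm_num : (0 : ℝ) ≤ 0.69) hw0 3
    norm_num at this ⊢; linarith
  have hL3 : (0.32 : ℝ) ≤ L ^ 3 := by
    have := pow_le_pow_left₀ (by norm_num : (0 : ℝ) ≤ 0.69) hL0 3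
    norm_num at this ⊢; linarith
  have hLw3 : (0.22 : ℝ) ≤ L * w ^ 3 := by
    have := mul_le_mul hL0 hw3 (by norm_num) (by linarith)
    norm_num at this ⊢; linarith
  have hX1 : l * q * w * 0.15 ≤ X := by
    have a1 : 0.47 * 0.32 ≤ L ^ 2 * w ^ 3 := mul_le_mul hL2 hw3 (by norm_num) (by positivity)
    have a2 : 0 ≤ l * q * w := by positivity
    have a3 := mul_le_mul_of_nonneg_left a1 a2
    have e : X = l * q * w * (L ^ 2 * w ^ 3) := by rw [hX]; ring
    rw [e]; linarith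
  have hX0 : 0 ≤ X := by positivity
  -- sizes
  have hsl : (s : ℝ) * l ≤ 48 * w * l := mul_le_mul_of_nonneg_right h3 (by linarith)
  have hsln : (s : ℝ) * l ≤ n := by
    have a1 : (k : ℝ) ≤ n := by exact_mod_cast hkn
    have a2 : w * l ≤ l * q * w := by
      have : w * l * 1 ≤ w * l * q := mul_le_mul_of_nonneg_left hq1 (by positivity)
      linarith
    linarith
  set S' := S + s * l with hS'
  have hS'2 : 2 ≤ S' := by
    have h8 : 2 ≤ s * l := h1.trans (Nat.le_mul_of_pos_right s hl)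
    omega
  have hS'r : (2 : ℝ) ≤ (S' : ℝ) := by exact_mod_cast hS'2
  have hS'n : (S' : ℝ) ≤ (n : ℝ) ^ 2 := by
    rw [hS']
    push_cast
    have a1 : (S : ℝ) ≤ n := by exact_mod_cast hSn
    have a2 := mul_le_mul_of_nonneg_right hn2 (show (0 : ℝ) ≤ n by linarith)
    rw [pow_two]; linarith
  have hlogS' : Real.log S' ≤ 2 * L := by
    have := Real.log_le_log (by linarith) hS'n
    rw [Real.log_pow] at this
    simpa using this
  have hlogS'0 : 0 ≤ Real.log S' := Real.log_nonneg (by linarith)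
  have hsqrt : Real.sqrt S' ≤ 9 * (q * w) := by
    rw [Real.sqrt_le_left (by positivity)]
    rw [hS']
    push_cast
    have a1 : (l : ℝ) ≤ S := by exact_mod_cast hlS
    have a2 : (s : ℝ) * l ≤ 48 * w * S := hsl.trans (mul_le_mul_of_nonneg_left a1 (by positivity))
    have a3 : 0.69 * (S : ℝ) ≤ w * S := mul_le_mul_of_nonneg_right hw0 (by linarith)
    have e : (9 * (q * w)) ^ 2 = 81 * (w * (w * S)) := by rw [← hqS]; ring
    rw [e]
    have a4 : 0.69 * (w * S) ≤ w * (w * S) := mul_le_mul_of_nonneg_right hw0 (by positivity)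
    linarith
  -- `k'`
  set k' := ⌈50 * Real.sqrt S' * Real.log S'⌉₊ with hk'
  have hk'1 : 50 * Real.sqrt S' * Real.log S' ≤ k' := Nat.le_ceil _
  have hk'2 : (k' : ℝ) ≤ 904 * (q * w * L) := by
    have a1 := (Nat.ceil_lt_add_one (a := 50 * Real.sqrt S' * Real.log S') (by positivity)).le
    have a2 : Real.sqrt S' * Real.log S' ≤ 9 * (q * w) * (2 * L) :=
      mul_le_mul hsqrt hlogS' hlogS'0 (by positivity)
    have a3 : (1 : ℝ) ≤ 2.2 * (q * w * L) := by
      have b1 : 0.69 * 0.69 ≤ w * L := mul_le_mul hw0 hL0 (by norm_num) (by linarith)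
      have b2 : 1 * (0.69 * 0.69) ≤ q * (w * L) := mul_le_mul hq1 b1 (by norm_num) (by linarith)
      rw [mul_assoc q]; norm_num at b2 ⊢; linarith
    rw [← hk'] at a1
    linarith
  -- `M`
  set M := k' * (Nat.log 2 S' + 1) + Nat.log 2 n + 1 with hM
  have hMb : ((2 * M - 1 : ℕ) : ℝ) ≤ 9050 * (q * w * L ^ 2) := by
    have a0 : ((2 * M - 1 : ℕ) : ℝ) ≤ 2 * (k' * ((Nat.log 2 S' : ℝ) + 1)) +
        2 * (Nat.log 2 n : ℝ) + 1 := by
      have : 2 * M - 1 ≤ 2 * (k' * (Nat.log 2 S' + 1)) + 2 * Nat.log 2 n + 1 := by omega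
      exact_mod_cast this
    have a1 : (Nat.log 2 S' : ℝ) + 1 ≤ 5 * L := by
      have b1 := natlog_le' (m := S') (by omega) hlogS'
      linarith
    have a2 : (k' : ℝ) * ((Nat.log 2 S' : ℝ) + 1) ≤ 904 * (q * w * L) * (5 * L) :=
      mul_le_mul hk'2 a1 (by positivity) (by positivity)
    have a3 : L ≤ 1.45 * (q * w * L) * 1 := by
      have b1 : 1 * 0.69 ≤ q * w := mul_le_mul hq1 hw0 (by norm_num) (by linarith)
      have b2 := mul_le_mul_of_nonneg_right b1 (show 0 ≤ L by linarith)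
      linarith
    have a4 : (q * w * L) ≤ 1.45 * (q * w * L ^ 2) := by
      have b1 : 0 ≤ q * w * L := by positivity
      have b2 := mul_le_mul_of_nonneg_left hL0 b1
      have e : q * w * L ^ 2 = q * w * L * L := by ring
      rw [e]; linarith
    have e : 904 * (q * w * L) * (5 * L) = 4520 * (q * w * L ^ 2) := by ring
    rw [e] at a2
    have hZ : 0 ≤ q * w * L ^ 2 := by positivity
    linarith
  have hM1 : 1 ≤ M := by omega
  have hMn : n < 2 ^ M := by
    refine lt_of_lt_of_le (Nat.lt_pow_succ_log_self (by norm_num : 1 < 2) n)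
      (Nat.pow_le_pow_right (by norm_num) ?_)
    omega
  have hMS : S' ^ k' < 2 ^ M := by
    have a1 : S' ≤ 2 ^ (Nat.log 2 S' + 1) := (Nat.lt_pow_succ_log_self (by norm_num) S').le
    have a2 : S' ^ k' ≤ (2 ^ (Nat.log 2 S' + 1)) ^ k' := Nat.pow_le_pow_left a1 k'
    rw [← pow_mul] at a2
    refine lt_of_le_of_lt a2 (Nat.pow_lt_pow_right (by norm_num) ?_)
    have : (Nat.log 2 S' + 1) * k' = k' * (Nat.log 2 S' + 1) := Nat.mul_comm _ _
    omega
  refine recon_core (k := k) (S := S) (l := l) (s := s) (M := M)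
    (k' := k') (R := R) (S' := S') x y hk hl (by omega) hδ hδ1 hfac h2
    (by omega) (by omega) hM1 hMn ?_ ?_ ?_
  · intro u v hu1 hu2 hv
    exact fin_sqrt (by omega) hMS hk'1 hu1 hu2 hv
  · exact lt_of_le_of_lt h4 (by linarith)
  · -- `d + 1`
    have hd : ((2 * M - 1 : ℕ) : ℝ) * ((s * l * Nat.log 2 (2 * n + 2) : ℕ) : ℝ) + 1 ≤
        2172010 * (l * q * L ^ 3 * w ^ 2) := by
      have a2 : ((s * l * Nat.log 2 (2 * n + 2) : ℕ) : ℝ) ≤ 48 * w * l * (5 * L) := by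
        push_cast
        exact mul_le_mul hsl h7 (Nat.cast_nonneg _) (by positivity)
      have a4 : ((2 * M - 1 : ℕ) : ℝ) * ((s * l * Nat.log 2 (2 * n + 2) : ℕ) : ℝ) ≤
          9050 * (q * w * L ^ 2) * (48 * w * l * (5 * L)) :=
        mul_le_mul hMb a2 (Nat.cast_nonneg _) (by positivity)
      have a5 : (1 : ℝ) ≤ 10 * (l * q * L ^ 3 * w ^ 2) := by
        have b1 : 1 * 1 ≤ (l : ℝ) * q := mul_le_mul hl' hq1 (by norm_num) (by linarith)
        have b3 : 0.32 * 0.47 ≤ L ^ 3 * w ^ 2 := mul_le_mul hL3 hw2 (by norm_num) (by positivity)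
        have b4 : 1 * (0.32 * 0.47) ≤ ((l : ℝ) * q) * (L ^ 3 * w ^ 2) :=
          mul_le_mul (by linarith) b3 (by norm_num) (by positivity)
        have e : (l : ℝ) * q * L ^ 3 * w ^ 2 = ((l : ℝ) * q) * (L ^ 3 * w ^ 2) := by ring
        rw [e]; norm_num at b4 ⊢; linarith
      have e : 9050 * (q * w * L ^ 2) * (48 * w * l * (5 * L)) =
          2172000 * (l * q * L ^ 3 * w ^ 2) := by ring
      linarith
    have hmain : (2 * (R : ℝ) + 1) * (((⌊4 / δ⌋₊ : ℝ) + 1) *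
        (((2 * M - 1 : ℕ) : ℝ) * ((s * l * Nat.log 2 (2 * n + 2) : ℕ) : ℝ) + 1)) ≤
        141180650 * X := by
      have a1 : ((⌊4 / δ⌋₊ : ℝ) + 1) *
          (((2 * M - 1 : ℕ) : ℝ) * ((s * l * Nat.log 2 (2 * n + 2) : ℕ) : ℝ) + 1) ≤
          5 / δ * (2172010 * (l * q * L ^ 3 * w ^ 2)) :=
        mul_le_mul h6 hd (by positivity) (by positivity)
      have a2 := mul_le_mul h5 a1 (by positivity) (by positivity)
      refine a2.trans (le_of_eq ?_)
      rw [hX, hw]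
      field_simp
      ring
    have hd2 : l * q * L ^ 3 * w ^ 2 ≤ 1.45 * X := by
      have b3 : L ≤ 1.45 * w ^ 2 := by
        have b2 := mul_le_mul_of_nonneg_right hw0 (show 0 ≤ w by linarith)
        rw [pow_two]; linarith
      have b4 : 0 ≤ l * q * L ^ 2 * w ^ 2 := by positivity
      have b5 := mul_le_mul_of_nonneg_left b3 b4
      have e1 : l * q * L ^ 3 * w ^ 2 = l * q * L ^ 2 * w ^ 2 * L := by ring
      have e2 : l * q * L ^ 2 * w ^ 2 * (1.45 * w ^ 2) = 1.45 * X := by rw [hX]; ring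
      linarith
    have hk'3 : q * w * L ≤ 5 * X := by
      have b2 : (1 : ℝ) ≤ 5 * (l * (L * w ^ 3)) := by
        have := mul_le_mul hl' hLw3 (by norm_num) (by linarith)
        norm_num at this ⊢; linarith
      have b3 : 0 ≤ q * w * L := by positivity
      have b4 := mul_le_mul_of_nonneg_left b2 b3
      have e : q * w * L * (5 * (l * (L * w ^ 3))) = 5 * X := by rw [hX]; ring
      linarith
    have hone : (1 : ℝ) ≤ 15 * X := by
      have b1 : (0.47 * 0.32 : ℝ) ≤ L ^ 2 * w ^ 3 :=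
        mul_le_mul hL2 hw3 (by norm_num) (by positivity)
      have b2 : (0.47 * 0.32 * 0.69 : ℝ) ≤ L ^ 2 * w ^ 3 * w :=
        mul_le_mul b1 hw0 (by norm_num) (by positivity)
      have b3 : 1 * 1 ≤ (l : ℝ) * q := mul_le_mul hl' hq1 (by norm_num) (by linarith)
      have b4 : 1 * (0.47 * 0.32 * 0.69) ≤ ((l : ℝ) * q) * (L ^ 2 * w ^ 3 * w) :=
        mul_le_mul (by linarith) b2 (by norm_num) (by positivity)
      have e : ((l : ℝ) * q) * (L ^ 2 * w ^ 3 * w) = X := by rw [hX]; ring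
      rw [e] at b4
      norm_num at b4 ⊢
      linarith
    have hfinal : (((2 * R + 1) * ((⌊4 / δ⌋₊ + 1) *
        ((2 * M - 1) * (s * l * Nat.log 2 (2 * n + 2)) + 1)) +
        ((2 * M - 1) * (s * l * Nat.log 2 (2 * n + 2)) + 1) + 1 + k' : ℕ) : ℝ)
        ≤ (k : ℝ) := by
      refine le_trans ?_ hkk
      have e : (((2 * R + 1) * ((⌊4 / δ⌋₊ + 1) *
        ((2 * M - 1) * (s * l * Nat.log 2 (2 * n + 2)) + 1)) +
        ((2 * M - 1) * (s * l * Nat.log 2 (2 * n + 2)) + 1) + 1 + k' : ℕ) : ℝ) =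
        (2 * (R : ℝ) + 1) * (((⌊4 / δ⌋₊ : ℝ) + 1) *
        (((2 * M - 1 : ℕ) : ℝ) * ((s * l * Nat.log 2 (2 * n + 2) : ℕ) : ℝ) + 1)) +
        (((2 * M - 1 : ℕ) : ℝ) * ((s * l * Nat.log 2 (2 * n + 2) : ℕ) : ℝ) + 1) + 1 + k' := by
        push_cast
        ring
      rw [e]
      linarith
    exact_mod_cast hfinal

end DeckG
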